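import Pool.Agent.H38R2.CG2.Stubs

/-!
# Project CG2: elementary facts used in several pieces
-/

set_option autoImplicit false

namespace Run7.h784.CG

open Finset Filter NumberField Pool.Agent.H38R2.CG Pool.Agent.H38R2.CG2
open scoped Classical

theorem phi_nonneg (t : ℝ) : 0 ≤ phi t := le_max_left _ _

theorem Rsum_nonneg (D n : ℕ) : 0 ≤ Rsum D n := by
  unfold Rsum
  refine sum_nonneg fun u _ => sum_nonneg fun v _ => ?_
  split_ifs
  · exact phi_nonneg _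
  · exact le_rfl

theorem SD_nonneg (D : ℕ) (S : Finset (Finset ℕ)) : 0 ≤ SD D S (fun _ => 1) := by
  unfold SD
  exact sum_nonneg fun s _ => sum_nonneg fun t _ => by
    have := Rsum_nonneg D (prodS s * prodS t)
    positivity

theorem abs_chi_le (D : ℤ) (n : ℕ) : |(chi D n : ℝ)| ≤ 1 := by
  unfold chi
  push_cast
  rw [abs_mul, abs_pow]
  have h1 : |((chi2 D : ℤ) : ℝ)| ≤ 1 := by
    unfold chi2
    split_ifs <;> norm_num
  have h2 : |((jacobiSym D (n / 2 ^ padicValNat 2 n) : ℤ) : ℝ)| ≤ 1 := by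
    rcases jacobiSym.trichotomy D (n / 2 ^ padicValNat 2 n) with h | h | h <;> rw [h] <;> norm_num
  calc |((chi2 D : ℤ) : ℝ)| ^ padicValNat 2 n * |((jacobiSym D (n / 2 ^ padicValNat 2 n) : ℤ) : ℝ)|
      ≤ 1 * 1 := mul_le_mul (pow_le_one₀ (abs_nonneg _) h1) h2 (abs_nonneg _) zero_le_one
    _ = 1 := one_mul 1

theorem one_add_chi_nonneg (D : ℤ) (n : ℕ) : 0 ≤ 1 + (chi D n : ℝ) := by
  have := abs_le.1 (abs_chi_le D n)
  linarith [this.1]

theorem MD_nonneg (D : ℕ) (S : Finset (Finset ℕ)) : 0 ≤ MD D S (fun _ => 1) := by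
  unfold MD
  exact sum_nonneg fun s _ => mul_nonneg zero_le_one
    (prod_nonneg fun p _ => one_add_chi_nonneg _ _)

theorem Qz_pos (z : ℕ) : 0 < Qz z := by
  unfold Qz
  refine Nat.mul_pos (by norm_num) (Finset.prod_pos fun l hl => ?_)
  exact pow_pos (Finset.mem_filter.1 hl).2.pos 2

theorem not_dvd_Qz {z p : ℕ} (hp : p.Prime) (h : z < p) (h2 : 2 < p) : ¬ p ∣ Qz z := by
  unfold Qz
  intro hd
  rcases (Nat.Prime.dvd_mul hp).1 hd with h1 | h1
  · have h3 : p ∣ 2 ^ 4 := by simpa using h1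
    have := (Nat.prime_dvd_prime_iff_eq hp Nat.prime_two).1 (hp.dvd_of_dvd_pow h3)
    omega
  · obtain ⟨l, hl, hpl⟩ := (Prime.dvd_finsetProd_iff hp.prime _).1 h1
    rw [mem_filter, mem_Icc] at hl
    have := (Nat.prime_dvd_prime_iff_eq hp hl.2).1 (hp.dvd_of_dvd_pow hpl)
    omega

theorem cc_pos {a : ℝ} (ha : 2 < a) : 0 < cc a := by
  unfold cc
  exact div_pos (by linarith) (by linarith)

theorem cc_lt {a : ℝ} (ha : 2 < a) : cc a < 1 / 32 := by
  unfold cc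
  rw [div_lt_div_iff₀ (by linarith) (by norm_num)]
  linarith

theorem mem_FD {z r X D : ℕ} {η : ℝ} (hη : 0 < η) (h : D ∈ FD z r X η) :
    X < D ∧ (D : ℝ) ≤ (1 + η) * X ∧ D % Qz z = r ∧ IsFund D := by
  unfold FD DD at h
  simp only [mem_filter, mem_Ioc] at h
  refine ⟨h.1.1.1, ?_, h.1.2, h.2⟩
  exact (Nat.le_floor_iff (by positivity)).1 h.1.1.2

theorem mem_DD {z r X D : ℕ} {η : ℝ} (hη : 0 < η) (h : D ∈ DD z r X η) :
    X < D ∧ (D : ℝ) ≤ (1 + η) * X ∧ D % Qz z = r := by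
  unfold DD at h
  simp only [mem_filter, mem_Ioc] at h
  refine ⟨h.1.1, ?_, h.2⟩
  exact (Nat.le_floor_iff (by positivity)).1 h.1.2

theorem PiR_pos (z r : ℕ) : 0 < PiR z r := by
  unfold PiR
  refine Finset.prod_pos fun l hl => ?_
  rw [mem_filter, mem_Icc] at hl
  have h1 : (2 : ℝ) ≤ l := by exact_mod_cast hl.1.1
  have h2 := (abs_le.1 (abs_chi_le r l)).2
  have h3 : (chi r l : ℝ) / l < 1 := by
    rw [div_lt_one (by linarith)]
    linarith
  linarith

theorem mem_PA {a : ℝ} {X p : ℕ} (h : p ∈ PA a X) : p.Prime ∧ yA a X < p ∧ p ≤ 2 * yA a X := by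
  unfold PA PP at h
  simp only [mem_filter, mem_Ioc] at h
  exact ⟨h.2, h.1⟩

theorem tendsto_log : Tendsto (fun X : ℕ => Real.log X) atTop atTop :=
  Real.tendsto_log_atTop.comp tendsto_natCast_atTop_atTop

theorem yA_ge {a : ℝ} (ha : 0 < a) (m : ℕ) : ∀ᶠ X : ℕ in atTop, m ≤ yA a X := by
  have h1 : Tendsto (fun X : ℕ => (Real.log X) ^ a) atTop atTop :=
    (tendsto_rpow_atTop ha).comp tendsto_log
  filter_upwards [h1.eventually_ge_atTop (4 * m)] with X hX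
  unfold yA
  apply Nat.le_floor
  linarith

/-- the primes of the family do not divide `Qz z` if `X` is large -/
theorem PA_ev {a : ℝ} (ha : 0 < a) (z : ℕ) : ∀ᶠ X : ℕ in atTop,
    ∀ p ∈ PA a X, p.Prime ∧ ¬ p ∣ Qz z ∧ z < p ∧ 2 < p := by
  filter_upwards [yA_ge ha (z + 2)] with X hX p hp
  obtain ⟨h1, h2, -⟩ := mem_PA hp
  exact ⟨h1, not_dvd_Qz h1 (by omega) (by omega), by omega, by omega⟩

theorem prodS_pos {s : Finset ℕ} (hs : ∀ p ∈ s, p.Prime) : 0 < prodS s :=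
  Finset.prod_pos fun p hp => (hs p hp).pos

end Run7.h784.CG
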