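import Pool.Agent.Run7.h784.CG.Basic

/-!
# Project CG2, piece AS0: few bad discriminants, in the weighted sense
-/

set_option autoImplicit false

namespace Run7.h784.CG

open Finset Filter NumberField Pool.Agent.H38R2.CG Pool.Agent.H38R2.CG2
open scoped Classical

/-- the key inequality -/
theorem core (F B : Finset ℕ) (w A L S : ℕ → ℝ) (R : ℝ) (hB : B ⊆ F)
    (hw : ∀ D ∈ F, 0 ≤ w D) (hA : ∀ D ∈ F, 0 ≤ A D) (hL : ∀ D ∈ F, 0 ≤ L D)
    (hS : ∀ D ∈ F, 0 ≤ S D) (hR : 0 ≤ R)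
    (h1 : ∀ D ∈ F, A D ^ 2 ≤ 2 * R * L D * S D)
    (h2 : ∀ D ∈ B, 2 * A D ^ 2 ≤ 2 * R * L D * S D) :
    (∑ D ∈ F, w D * A D + (2 / 5 : ℝ) * ∑ D ∈ B, w D * A D) ^ 2 ≤
      2 * R * ((∑ D ∈ F, w D * L D) * ∑ D ∈ F, w D * S D) := by
  have hcs : (∑ D ∈ F, w D * √(L D * S D)) ^ 2 ≤
      (∑ D ∈ F, w D * L D) * ∑ D ∈ F, w D * S D := by
    refine Finset.sum_sq_le_sum_mul_sum_of_sq_le_mul F (fun D hD => mul_nonneg (hw D hD) (hL D hD))
      (fun D hD => mul_nonneg (hw D hD) (hS D hD)) (fun D hD => le_of_eq ?_)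
    rw [mul_pow, Real.sq_sqrt (mul_nonneg (hL D hD) (hS D hD))]
    ring
  have h3 : ∀ D ∈ F, (A D + if D ∈ B then (2 / 5 : ℝ) * A D else 0) ≤
      √(2 * R) * √(L D * S D) := by
    intro D hD
    have hAD := hA D hD
    rw [← Real.sqrt_mul (by positivity)]
    have e : 2 * R * (L D * S D) = 2 * R * L D * S D := by ring
    rw [e]
    split_ifs with hDB
    · apply Real.le_sqrt_of_sq_le
      have := h2 D hDB
      nlinarith [sq_nonneg (A D)]
    · rw [add_zero]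
      exact Real.le_sqrt_of_sq_le (h1 D hD)
  have h4 : ∑ D ∈ F, w D * A D + (2 / 5 : ℝ) * ∑ D ∈ B, w D * A D =
      ∑ D ∈ F, w D * (A D + if D ∈ B then (2 / 5 : ℝ) * A D else 0) := by
    have e1 : ∑ D ∈ B, w D * A D = ∑ D ∈ F, if D ∈ B then w D * A D else 0 := by
      rw [← Finset.sum_filter]
      congr 1
      ext D
      simp only [mem_filter]
      exact ⟨fun h => ⟨hB h, h⟩, fun h => h.2⟩
    rw [e1, mul_sum, ← sum_add_distrib]
    refine sum_congr rfl fun D _ => ?_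
    split_ifs <;> ring
  have h5 : ∑ D ∈ F, w D * (A D + if D ∈ B then (2 / 5 : ℝ) * A D else 0) ≤
      √(2 * R) * ∑ D ∈ F, w D * √(L D * S D) := by
    rw [mul_sum]
    refine sum_le_sum fun D hD => ?_
    calc w D * (A D + if D ∈ B then (2 / 5 : ℝ) * A D else 0)
        ≤ w D * (√(2 * R) * √(L D * S D)) := mul_le_mul_of_nonneg_left (h3 D hD) (hw D hD)
      _ = _ := by ring
  have h6 : 0 ≤ ∑ D ∈ F, w D * (A D + if D ∈ B then (2 / 5 : ℝ) * A D else 0) := by
    refine sum_nonneg fun D hD => mul_nonneg (hw D hD) ?_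
    have hAD := hA D hD
    split_ifs <;> linarith
  rw [h4]
  calc (∑ D ∈ F, w D * (A D + if D ∈ B then (2 / 5 : ℝ) * A D else 0)) ^ 2
      ≤ (√(2 * R) * ∑ D ∈ F, w D * √(L D * S D)) ^ 2 := pow_le_pow_left₀ h6 h5 2
    _ = 2 * R * (∑ D ∈ F, w D * √(L D * S D)) ^ 2 := by
        rw [mul_pow, Real.sq_sqrt (by positivity)]
    _ ≤ _ := mul_le_mul_of_nonneg_left hcs (by positivity)

theorem T2_AS0 (hNF : P_NF) (hLM : P2_LM) (hM1L : P2_M1L) (hMLOW : P2_MLOW) (hTM : P2_TM)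
    (hWT : P2_WT) (hNB : P2_NB) : P2_AS0 := by
  intro a ha C0 hC0 ε hε
  set ε' : ℝ := min ε 1 with hε'
  have hε'0 : 0 < ε' := lt_min hε one_pos
  have hε'1 : ε' ≤ 1 := min_le_right _ _
  have hε'ε : ε' ≤ ε := min_le_left _ _
  set δ : ℝ := ε' / 200 with hδ
  have hδ0 : 0 < δ := by positivity
  have hδ1 : δ ≤ 1 / 200 := by rw [hδ]; linarith
  refine ⟨⌈(2 * C0 + 4) / δ⌉₊ + 2, fun z hz => ?_⟩
  have hz2 : 2 ≤ z := le_trans (Nat.le_add_left _ _) hz
  have hzR : (2 * C0 + 4) / δ ≤ z := by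
    have h1 : ((⌈(2 * C0 + 4) / δ⌉₊ + 2 : ℕ) : ℝ) ≤ z := by exact_mod_cast hz
    have h2 := Nat.le_ceil ((2 * (C0 : ℝ) + 4) / δ)
    push_cast at h1
    linarith
  have hz0 : (0 : ℝ) < z := by
    have : (2 : ℝ) ≤ z := by exact_mod_cast hz2
    linarith
  have hzb : (2 * (C0 : ℝ) + 4) / z ≤ δ := by
    rw [div_le_iff₀ hz0]
    rw [div_le_iff₀ hδ0] at hzR
    linarith
  have hC0R : (1 : ℝ) ≤ C0 := by exact_mod_cast hC0
  have hz4 : 4 / (z : ℝ) ≤ δ := le_trans (by gcongr; linarith) hzb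
  have hzC : 2 * (C0 : ℝ) / z ≤ δ := le_trans (by gcongr; linarith) hzb
  refine ⟨δ, hδ0, fun η hη hη1 r hr => ?_⟩
  have hη1' : η ≤ 1 := by linarith
  obtain ⟨X1, H1⟩ := hLM a ha z r hz2 hr η hη hη1' C0 hC0 δ hδ0
  obtain ⟨X2, H2⟩ := hM1L a ha z r hz2 hr η hη hη1' C0 hC0 δ hδ0
  obtain ⟨X3, H3⟩ := hMLOW a ha z r hr η hη hη1' C0 hC0 (ε' / 2) (by positivity)
  obtain ⟨X4, H4⟩ := hTM a ha z r hz2 hr η hη hη1' C0 hC0 δ hδ0
  obtain ⟨X5, H5⟩ := hNB a ha 1 one_pos
  refine ⟨max (max (max X1 X2) (max X3 X4)) (max X5 3000), fun X hX ρ hρ => ?_⟩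
  simp only [ge_iff_le, max_le_iff] at hX
  obtain ⟨⟨⟨hX1, hX2⟩, hX3, hX4⟩, hX5, hX6⟩ := hX
  have K1 := H1 X hX1 ρ hρ
  have K2 := H2 X hX2 ρ hρ
  have K3 := H3 X hX3 ρ hρ
  have K4 := H4 X hX4 ρ hρ
  have K5 := (H5 X hX5).2.1
  have hXr : (3000 : ℝ) ≤ X := by exact_mod_cast hX6
  have hX0 : (0 : ℝ) < X := by linarith
  have hlog : 8 ≤ Real.log X := by
    rw [Real.le_log_iff_exp_le hX0]
    have h1 : Real.exp 8 = Real.exp 1 ^ 8 := by rw [← Real.exp_nat_mul]; norm_num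
    have h2 := Real.exp_one_lt_d9
    have h3 : Real.exp 1 ^ 8 ≤ 2.7182818286 ^ 8 :=
      pow_le_pow_left₀ (Real.exp_pos 1).le h2.le 8
    rw [h1]
    refine h3.trans ?_
    norm_num
    linarith
  have hG : 0 < GG X ρ := lt_of_lt_of_le (by positivity) hρ.low
  have hQ : (0 : ℝ) < Qz z := by exact_mod_cast Qz_pos z
  set N : ℝ := NA a X with hN
  have hN0 : 0 < N := lt_of_lt_of_le (by positivity) K5
  set W : ℝ := WW z X η ρ with hW
  have hWe : W = η * X / Qz z * GG X ρ := rfl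
  have hW0 : 0 < W := by rw [hWe]; positivity
  set F := FD z r X η with hF
  set B := F.filter (fun D => BadA a X D) with hBd
  have hwt : ∀ D : ℕ, 1 ≤ D → 0 ≤ wt ρ D := fun D hD =>
    (hWT z X (PA a X) (cc a) C0 ρ (by omega) (by linarith [cc_lt ha]) hρ D hD).1
  have hwF : ∀ D ∈ F, 0 ≤ wt ρ D := fun D hD => hwt D (by
    have := (mem_FD hη hD).1
    omega)
  set A : ℕ → ℝ := fun D => MD D (SA a X) (fun _ => 1) with hAd
  -- the primes in the family
  have hy2 : 2 ≤ yA a X := by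
    unfold yA
    apply Nat.le_floor
    have h1 : Real.log X ≤ (Real.log X) ^ a := by
      calc Real.log X = (Real.log X) ^ (1 : ℝ) := (Real.rpow_one _).symm
        _ ≤ (Real.log X) ^ a := Real.rpow_le_rpow_of_exponent_le (by linarith) (by linarith)
    push_cast
    linarith
  have hfam : ∀ s ∈ SA a X, ∀ p ∈ s, p.Prime ∧ p ≠ 2 ∧ (p : ℝ) ≤ (Real.log X) ^ a / 2 := by
    intro s hs p hp
    have h1 : p ∈ PP (yA a X) := (mem_powersetCard.1 hs).1 hp
    unfold PP at h1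
    simp only [mem_filter, mem_Ioc] at h1
    refine ⟨h1.2, by omega, ?_⟩
    have h2 : (p : ℝ) ≤ 2 * (yA a X : ℝ) := by exact_mod_cast h1.1.2
    have h3 : (yA a X : ℝ) ≤ (Real.log X) ^ a / 4 := Nat.floor_le (by positivity)
    linarith
  -- bounds for each D
  set R : ℝ := (1 + η) * √(X : ℝ) with hR
  have hR0 : 0 ≤ R := by positivity
  have hsq : ∀ D ∈ F, √(D : ℝ) ≤ R := by
    intro D hD
    have h1 := (mem_FD hη hD).2.1
    calc √(D : ℝ) ≤ √((1 + η) ^ 2 * X) := by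
          apply Real.sqrt_le_sqrt
          refine h1.trans ?_
          have : (1 + η) ≤ (1 + η) ^ 2 := by nlinarith
          exact mul_le_mul_of_nonneg_right this hX0.le
      _ = R := by rw [Real.sqrt_mul (by positivity), Real.sqrt_sq (by positivity)]
  have hLn : ∀ D ∈ F, 0 ≤ Lone D := fun D hD => (hNF D (mem_FD hη hD).2.2.2).1
  have h1 : ∀ D ∈ F, A D ^ 2 ≤ 2 * R * Lone D * SD D (SA a X) (fun _ => 1) := by
    intro D hD
    have h2 := (hNF D (mem_FD hη hD).2.2.2).2.1 (SA a X) (fun _ => 1)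
      (fun s hs => ⟨zero_le_one, fun p hp => ⟨(hfam s hs p hp).1, (hfam s hs p hp).2.1⟩⟩)
    refine h2.trans ?_
    have h3 := SD_nonneg D (SA a X)
    have h4 := hLn D hD
    have h5 := hsq D hD
    gcongr
  have h2 : ∀ D ∈ B, 2 * A D ^ 2 ≤ 2 * R * Lone D * SD D (SA a X) (fun _ => 1) := by
    intro D hDB
    obtain ⟨hD, hbad⟩ := mem_filter.1 hDB
    have h2 := (hNF D (mem_FD hη hD).2.2.2).2.2 ((Real.log X) ^ a / 2) hbad (SA a X) (fun _ => 1)
      (fun s hs => ⟨zero_le_one, fun p hp => hfam s hs p hp⟩)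
    refine h2.trans ?_
    have h3 := SD_nonneg D (SA a X)
    have h4 := hLn D hD
    have h5 := hsq D hD
    gcongr
  have key := core F B (wt ρ) A Lone (fun D => SD D (SA a X) (fun _ => 1)) R (filter_subset _ _)
    hwF (fun D _ => MD_nonneg D _) hLn (fun D _ => SD_nonneg D _) hR0 h1 h2
  -- the sums
  set U1 : ℝ := ∑ D ∈ F, wt ρ D * A D with hU1
  set U2 : ℝ := ∑ D ∈ B, wt ρ D * A D with hU2
  set SL : ℝ := ∑ D ∈ F, wt ρ D * Lone D with hSL
  set SS : ℝ := ∑ D ∈ F, wt ρ D * SD D (SA a X) (fun _ => 1) with hSS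
  have hSL0 : 0 ≤ SL := sum_nonneg fun D hD => mul_nonneg (hwF D hD) (hLn D hD)
  have hSS0 : 0 ≤ SS := sum_nonneg fun D hD => mul_nonneg (hwF D hD) (SD_nonneg D _)
  have hSS1 : SS ≤ (1 + δ) * (PiR z r / (2 * Qz z)) * GG X ρ * η * √(X : ℝ) * N ^ 2 := by
    refine le_trans ?_ K4
    refine sum_le_sum_of_subset_of_nonneg (filter_subset _ _) ?_
    intro D hD _
    refine mul_nonneg (hwt D ?_) (SD_nonneg D _)
    unfold DD at hD
    simp only [mem_filter, mem_Ioc] at hD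
    omega
  set κ : ℝ := (1 + η) * (1 + δ) * (1 + 4 / z) with hκ
  have hκ0 : 0 < κ := by positivity
  have hz40 : (0 : ℝ) ≤ 4 / z := by positivity
  have hprod : 2 * R * (SL * SS) ≤ (κ * W * N) ^ 2 := by
    rcases le_or_gt (PiR z r) 0 with hP | hP
    · have : SS ≤ 0 := by
        refine hSS1.trans ?_
        have e : (1 + δ) * (PiR z r / (2 * Qz z)) * GG X ρ * η * √(X : ℝ) * N ^ 2 =
          PiR z r * ((1 + δ) / (2 * Qz z) * GG X ρ * η * √(X : ℝ) * N ^ 2) := by ring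
        rw [e]
        exact mul_nonpos_of_nonpos_of_nonneg hP (by positivity)
      have h0 : SS = 0 := le_antisymm this hSS0
      rw [h0]
      simp only [mul_zero]
      positivity
    · have h3 : SL * SS ≤ ((1 + δ) * (1 + 4 / z) * W / PiR z r) *
          ((1 + δ) * (PiR z r / (2 * Qz z)) * GG X ρ * η * √(X : ℝ) * N ^ 2) :=
        mul_le_mul K1 hSS1 hSS0 (by positivity)
      calc 2 * R * (SL * SS) ≤ 2 * R * (((1 + δ) * (1 + 4 / z) * W / PiR z r) *
          ((1 + δ) * (PiR z r / (2 * Qz z)) * GG X ρ * η * √(X : ℝ) * N ^ 2)) :=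
            mul_le_mul_of_nonneg_left h3 (by positivity)
        _ = (1 + η) * (1 + δ) ^ 2 * (1 + 4 / z) * (W * N) ^ 2 := by
            have hs : √(X : ℝ) * √(X : ℝ) = X := Real.mul_self_sqrt hX0.le
            have e1 : 2 * R * (((1 + δ) * (1 + 4 / z) * W / PiR z r) *
              ((1 + δ) * (PiR z r / (2 * Qz z)) * GG X ρ * η * √(X : ℝ) * N ^ 2)) =
              (1 + η) * (1 + δ) ^ 2 * (1 + 4 / z) * W * (η * (√(X : ℝ) * √(X : ℝ)) / Qz z *
                GG X ρ) * N ^ 2 * (PiR z r / PiR z r) := by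
              rw [hR]
              ring
            rw [e1, div_self hP.ne', hs, ← hWe]
            ring
        _ ≤ κ ^ 2 * (W * N) ^ 2 := by
            apply mul_le_mul_of_nonneg_right _ (by positivity)
            rw [hκ]
            have e : ((1 + η) * (1 + δ) * (1 + 4 / (z : ℝ))) ^ 2 =
              ((1 + η) * (1 + δ) ^ 2 * (1 + 4 / z)) * ((1 + η) * (1 + 4 / z)) := by ring
            rw [e]
            refine le_mul_of_one_le_right (by positivity) ?_
            nlinarith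
        _ = (κ * W * N) ^ 2 := by ring
  have hU1n : 0 ≤ U1 := sum_nonneg fun D hD => mul_nonneg (hwF D hD) (MD_nonneg D _)
  have hU2n : 0 ≤ U2 := sum_nonneg fun D hD =>
    mul_nonneg (hwF D (mem_filter.1 hD).1) (MD_nonneg D _)
  have hmain : U1 + 2 / 5 * U2 ≤ κ * W * N := by
    refine le_of_sq_le_sq ?_ (by positivity)
    exact key.trans hprod
  -- lower bound for U1
  have hlow : N * ((1 - δ - 2 * C0 / z) * W) ≤ U1 := by
    have e : U1 = ∑ s ∈ SA a X, ∑ D ∈ F, wt ρ D * ∏ p ∈ s, (1 + (chi D p : ℝ)) := by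
      rw [hU1, sum_comm]
      refine sum_congr rfl fun D _ => ?_
      rw [hAd]
      simp only [MD, one_mul]
      rw [mul_sum]
    rw [e]
    have hcard : N = ((SA a X).card : ℝ) := by
      rw [hN]
      unfold NA CA SA
      rw [card_powersetCard]
    rw [hcard, ← nsmul_eq_mul, ← sum_const]
    exact sum_le_sum fun s hs => K2 s hs
  -- conclusion
  have hU2b : U2 ≤ (5 / 2 : ℝ) * (κ - (1 - δ - 2 * C0 / z)) * (W * N) := by nlinarith
  have hκb : κ - (1 - δ - 2 * C0 / z) ≤ 9 * δ := by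
    have h5 : κ ≤ (1 + δ) * (1 + δ) * (1 + δ) := by
      rw [hκ]
      gcongr
    have h6 : δ * δ ≤ δ := by nlinarith
    have h7 : δ * (δ * δ) ≤ δ := by nlinarith
    have h8 : (1 + δ) * (1 + δ) * (1 + δ) = 1 + 3 * δ + 3 * (δ * δ) + δ * (δ * δ) := by ring
    linarith
  have hU2c : U2 ≤ (45 / 2 : ℝ) * δ * (W * N) := by
    have : 0 < W * N := by positivity
    nlinarith
  have hsplit : ∑ D ∈ B, wt ρ D ≤ ε' / 2 * W + 2 / N * U2 := by
    rw [← Finset.sum_filter_add_sum_filter_not B (fun D => A D < (1 - ε' / 2) * N)]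
    refine add_le_add ?_ ?_
    · refine le_trans ?_ K3
      refine sum_le_sum_of_subset_of_nonneg ?_ ?_
      · intro D hD
        rw [mem_filter] at hD ⊢
        have h6 : D ∈ F := (mem_filter.1 hD.1).1
        exact ⟨(mem_filter.1 h6).1, hD.2⟩
      · intro D hD _
        apply hwt D
        have h7 := (mem_filter.1 hD).1
        unfold DD at h7
        simp only [mem_filter, mem_Ioc] at h7
        omega
    · rw [hU2, mul_sum]
      refine le_trans ?_ (sum_le_sum_of_subset_of_nonneg (filter_subset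
        (fun D => ¬ A D < (1 - ε' / 2) * N) B) ?_)
      · refine sum_le_sum fun D hD => ?_
        rw [mem_filter] at hD
        have h6 : 0 ≤ wt ρ D := hwF D (mem_filter.1 hD.1).1
        have h7 : (1 / 2 : ℝ) * N ≤ A D := by
          have := not_lt.1 hD.2
          nlinarith
        have h8 : 1 ≤ 2 / N * A D := by
          rw [div_mul_eq_mul_div, le_div_iff₀ hN0]
          linarith
        calc wt ρ D = wt ρ D * 1 := (mul_one _).symm
          _ ≤ wt ρ D * (2 / N * A D) := mul_le_mul_of_nonneg_left h8 h6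
          _ = _ := by ring
      · intro D hD _
        have h6 : 0 ≤ wt ρ D := hwF D (mem_filter.1 hD).1
        have h7 : 0 ≤ A D := MD_nonneg D _
        positivity
  calc ∑ D ∈ B, wt ρ D ≤ ε' / 2 * W + 2 / N * U2 := hsplit
    _ ≤ ε' / 2 * W + 2 / N * ((45 / 2 : ℝ) * δ * (W * N)) := by gcongr
    _ = (ε' / 2 + 45 * δ) * W := by field_simp
    _ ≤ ε * W := by
        apply mul_le_mul_of_nonneg_right _ hW0.le
        rw [hδ]
        linarith

end Run7.h784.CG
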