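import Pool.Agent.Run7.h784.CG.Basic

/-!
# Project CG2, pieces AS1, AP: few bad discriminants, few bad prime discriminants
-/

set_option autoImplicit false

namespace Run7.h784.CG

open Finset Filter NumberField Pool.Agent.H38R2.CG Pool.Agent.H38R2.CG2
open scoped Classical

theorem sixteen_dvd (z : ℕ) : 16 ∣ Qz z := Dvd.intro _ rfl

theorem sq_dvd_Qz {z l : ℕ} (hl : l ∈ (Finset.Icc 3 z).filter Nat.Prime) : l ^ 2 ∣ Qz z :=
  Dvd.dvd.mul_left (Finset.dvd_prod_of_mem (fun l => l ^ 2) hl) 16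

/-- the residue class of a fundamental discriminant -/
theorem fundRes {D : ℕ} (hD : IsFund D) (z : ℕ) : FundRes z (D % Qz z) := by
  refine ⟨Nat.mod_lt _ (Qz_pos z), ?_, ?_⟩
  · have h16 : D % Qz z % 16 = D % 16 := Nat.mod_mod_of_dvd D (sixteen_dvd z)
    rcases hD.2 with ⟨h, -⟩ | ⟨m, rfl, h, -⟩
    · left; omega
    · right; omega
  · intro l hl hd
    have hl' := (mem_filter.1 hl)
    have hl3 : 3 ≤ l := (mem_Icc.1 hl'.1).1
    have h1 : l ^ 2 ∣ D := (Nat.dvd_mod_iff (sq_dvd_Qz hl)).1 hd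
    rcases hD.2 with ⟨-, h⟩ | ⟨m, rfl, -, h⟩
    · have := h l (by rwa [← sq])
      exact hl'.2.one_lt.ne' (Nat.isUnit_iff.1 this)
    · have hco : Nat.Coprime (l ^ 2) 4 := by
        apply Nat.Coprime.pow_left
        have : Nat.Coprime l 2 := (Nat.coprime_primes hl'.2 Nat.prime_two).2 (by omega)
        exact Nat.Coprime.pow_right 2 this
      have h2 : l ^ 2 ∣ m := hco.dvd_of_dvd_mul_left h1
      have := h l (by rwa [← sq])
      exact hl'.2.one_lt.ne' (Nat.isUnit_iff.1 this)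

theorem fiber_bound (a : ℝ) (z X : ℕ) (η ε : ℝ) (ρ : ℕ → ℝ)
    (hwt : ∀ D : ℕ, 1 ≤ D → 0 ≤ wt ρ D) (S R : Finset ℕ)
    (hS : ∀ D ∈ S, D ∈ Ioc X ⌊(1 + η) * X⌋₊ ∧ IsFund D ∧ BadA a X D ∧ D % Qz z ∈ R)
    (hW : 0 ≤ ε * WW z X η ρ)
    (hAS : ∀ r, FundRes z r →
      ∑ D ∈ (FD z r X η).filter (fun D => BadA a X D), wt ρ D ≤ ε * WW z X η ρ) :
    ∑ D ∈ S, wt ρ D ≤ R.card * (ε * WW z X η ρ) := by
  rw [← Finset.sum_fiberwise_of_maps_to (t := R) (g := fun D => D % Qz z)
    (fun D hD => (hS D hD).2.2.2), ← nsmul_eq_mul, ← sum_const]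
  refine sum_le_sum fun r _ => ?_
  rcases (S.filter (fun D => D % Qz z = r)).eq_empty_or_nonempty with h | ⟨D0, hD0⟩
  · rw [h]
    simpa using hW
  · rw [mem_filter] at hD0
    have hr : FundRes z r := by
      rw [← hD0.2]
      exact fundRes (hS D0 hD0.1).2.1 z
    refine le_trans (sum_le_sum_of_subset_of_nonneg ?_ ?_) (hAS r hr)
    · intro D hD
      rw [mem_filter] at hD
      obtain ⟨h1, h2, h3, -⟩ := hS D hD.1
      unfold FD DD
      simp only [mem_filter]
      exact ⟨⟨⟨h1, hD.2⟩, h2⟩, h3⟩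
    · intro D hD _
      apply hwt
      unfold FD DD at hD
      simp only [mem_filter, mem_Ioc] at hD
      omega

theorem as0_unif (hAS0 : P2_AS0) {a : ℝ} (ha : 2 < a) {C0 : ℕ} (hC0 : 1 ≤ C0) {ε : ℝ}
    (hε : 0 < ε) : ∃ z : ℕ, 2 ≤ z ∧ ∃ η : ℝ, 0 < η ∧ η ≤ 1 ∧ ∀ᶠ X : ℕ in atTop,
      ∀ ρ : ℕ → ℝ, SWt z X (PA a X) (cc a) C0 ρ → ∀ r, FundRes z r →
      ∑ D ∈ (FD z r X η).filter (fun D => BadA a X D), wt ρ D ≤ ε * WW z X η ρ := by
  obtain ⟨z0, hz0⟩ := hAS0 a ha C0 hC0 ε hε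
  obtain ⟨η1, hη1, h⟩ := hz0 (max z0 2) (le_max_left _ _)
  refine ⟨max z0 2, le_max_right _ _, min η1 1, lt_min hη1 one_pos, min_le_right _ _, ?_⟩
  have h2 : ∀ᶠ X : ℕ in atTop, ∀ r ∈ range (Qz (max z0 2)), FundRes (max z0 2) r →
      ∀ ρ : ℕ → ℝ, SWt (max z0 2) X (PA a X) (cc a) C0 ρ →
      ∑ D ∈ (FD (max z0 2) r X (min η1 1)).filter (fun D => BadA a X D), wt ρ D ≤
        ε * WW (max z0 2) X (min η1 1) ρ := by
    rw [Filter.eventually_all_finset]
    intro r _
    by_cases hr : FundRes (max z0 2) r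
    · obtain ⟨X0, hX0⟩ := h (min η1 1) (lt_min hη1 one_pos) (min_le_left _ _) r hr
      filter_upwards [eventually_ge_atTop X0] with X hX _
      exact hX0 X hX
    · exact Eventually.of_forall fun X h => absurd h hr
  filter_upwards [h2] with X hX ρ hρ r hr
  exact hX r (mem_range.2 hr.1) hr ρ hρ

theorem T2_AS1 (hAS0 : P2_AS0) (hTRIV : P2_TRIV) : P2_AS1 := by
  intro a ha ε hε
  obtain ⟨z, -, η, hη, hη1, h⟩ := as0_unif hAS0 ha (C0 := 1) le_rfl hε
  refine ⟨η, hη, hη1, ?_⟩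
  have h2 : ∀ᶠ X : ℕ in atTop, (((Finset.Ioc X ⌊(1 + η) * X⌋₊).filter
      (fun D => IsFund D ∧ BadA a X D)).card : ℝ) ≤ ε * η * X := by
    filter_upwards [h, eventually_ge_atTop 3] with X hX hX3
    obtain ⟨t1, t2, t3⟩ := hTRIV z X (PA a X) (cc a) 1 hX3 (cc_pos ha) le_rfl
      (fun p hp => (mem_PA hp).1)
    set ρ : ℕ → ℝ := fun d => if d = 1 then 1 else 0 with hρ
    have hQ : (0 : ℝ) < Qz z := by exact_mod_cast Qz_pos z
    have hW : WW z X η ρ = η * X / Qz z := by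
      unfold WW
      rw [t2, mul_one]
    have k := fiber_bound a z X η ε ρ (fun D hD => by rw [t3 D hD]; exact zero_le_one)
      ((Finset.Ioc X ⌊(1 + η) * X⌋₊).filter (fun D => IsFund D ∧ BadA a X D)) (range (Qz z))
      (fun D hD => ?_) (by rw [hW]; positivity) (fun r hr => hX ρ t1 r hr)
    · have e : ∑ D ∈ (Finset.Ioc X ⌊(1 + η) * X⌋₊).filter (fun D => IsFund D ∧ BadA a X D),
          wt ρ D = (((Finset.Ioc X ⌊(1 + η) * X⌋₊).filter
          (fun D => IsFund D ∧ BadA a X D)).card : ℝ) := by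
        rw [Finset.cast_card]
        refine sum_congr rfl fun D hD => ?_
        rw [mem_filter, mem_Ioc] at hD
        exact t3 D (by omega)
      rw [e, hW, card_range] at k
      refine k.trans (le_of_eq ?_)
      field_simp
    · rw [mem_filter] at hD
      exact ⟨hD.1, hD.2.1, hD.2.2, mem_range.2 (Nat.mod_lt _ (Qz_pos z))⟩
  exact eventually_atTop.1 h2

theorem T2_AP (hAS0 : P2_AS0) (hBH : P2_BH) (hRC : P2_RC) (hWT : P2_WT) : P2_AP := by
  intro a ha ε hε
  obtain ⟨C0, hC0, hB⟩ := hBH (cc a) (cc_pos ha) (by linarith [cc_lt ha])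
  have hC0R : (0 : ℝ) < C0 := by
    have : (1 : ℝ) ≤ C0 := by exact_mod_cast hC0
    linarith
  obtain ⟨z, hz, η, hη, hη1, h⟩ := as0_unif hAS0 ha hC0 (ε := ε / C0) (by positivity)
  refine ⟨η, hη, hη1, ?_⟩
  obtain ⟨X1, hX1⟩ := hB z hz a ha
  have h2 : ∀ᶠ X : ℕ in atTop, (((Finset.Ioc X ⌊(1 + η) * X⌋₊).filter
      (fun D => (∃ p : ℕ, p.Prime ∧ (D = p ∨ D = 4 * p)) ∧
        IsFund D ∧ BadA a X D)).card : ℝ) ≤ ε * η * X / Real.log X := by
    filter_upwards [h, eventually_ge_atTop X1, eventually_ge_atTop (16 * z + 16)]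
      with X hX hXX1 hXz
    obtain ⟨ρ, t1, t2, t3⟩ := hX1 X hXX1
    have hXr : (16 : ℝ) ≤ X := by
      have : 16 ≤ X := by omega
      exact_mod_cast this
    have hXp : (0 : ℝ) < X := by linarith
    have hQ : (0 : ℝ) < Qz z := by exact_mod_cast Qz_pos z
    have hlog : 0 < Real.log X := Real.log_pos (by linarith)
    have hG : 0 < GG X ρ := lt_of_lt_of_le (by positivity) t1.low
    have hW : WW z X η ρ = η * X / Qz z * GG X ρ := rfl
    have hWT' := hWT z X (PA a X) (cc a) C0 ρ (by omega) (by linarith [cc_lt ha]) t1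
    set S := (Finset.Ioc X ⌊(1 + η) * X⌋₊).filter
      (fun D => (∃ p : ℕ, p.Prime ∧ (D = p ∨ D = 4 * p)) ∧ IsFund D ∧ BadA a X D) with hS
    set R := (Finset.range (Qz z)).filter (fun r => ∀ q ∈ (Finset.Icc 3 z).filter Nat.Prime,
      ¬ q ∣ r) with hR
    have k := fiber_bound a z X η (ε / C0) ρ (fun D hD => (hWT' D hD).1) S R
      (fun D hD => ?_) (by rw [hW]; positivity) (fun r hr => hX ρ t1 r hr)
    · have e : (S.card : ℝ) = ∑ D ∈ S, wt ρ D := by
        rw [Finset.cast_card]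
        refine sum_congr rfl fun D hD => ?_
        rw [hS, mem_filter, mem_Ioc] at hD
        obtain ⟨⟨hXD, hD2⟩, ⟨p, hp, hDp⟩, -⟩ := hD
        unfold wt
        rw [Finset.sum_eq_single 1, t2]
        · intro d hd hd1
          by_contra h0
          obtain ⟨s1, s2, s3, s4, -⟩ := t1.supp d h0
          have hdD : d ∣ D := Nat.dvd_of_mem_divisors hd
          have hodd : Nat.Coprime d 2 :=
            Nat.Coprime.coprime_dvd_right (dvd_trans (by norm_num) (sixteen_dvd z)) s4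
          have hdp : d ∣ p := by
            rcases hDp with h5 | h5
            · rwa [← h5]
            · rw [h5] at hdD
              exact (Nat.Coprime.pow_right 2 hodd).dvd_of_dvd_mul_left hdD
          have hdp2 : d = p := ((Nat.dvd_prime hp).1 hdp).resolve_left hd1
          have hp4 : X < 4 * p := by
            rcases hDp with h5 | h5 <;> omega
          have hp4r : (X : ℝ) < 4 * p := by exact_mod_cast hp4
          have h6 : (X : ℝ) ^ (cc a) ≤ (X : ℝ) ^ (1 / 2 : ℝ) :=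
            Real.rpow_le_rpow_of_exponent_le (by linarith) (by linarith [cc_lt ha])
          have h7 : (4 : ℝ) ≤ (X : ℝ) ^ (1 / 2 : ℝ) := by
            calc (4 : ℝ) = (16 : ℝ) ^ (1 / 2 : ℝ) := by
                  rw [show (16 : ℝ) = 4 ^ (2 : ℝ) by norm_num, ← Real.rpow_mul (by norm_num)]
                  norm_num
              _ ≤ (X : ℝ) ^ (1 / 2 : ℝ) := Real.rpow_le_rpow (by norm_num) hXr (by norm_num)
          have h8 : (X : ℝ) ^ (1 / 2 : ℝ) * (X : ℝ) ^ (1 / 2 : ℝ) = X := by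
            rw [← Real.rpow_add hXp]
            norm_num
          rw [hdp2] at s2
          nlinarith
        · intro h9
          exact absurd (Nat.mem_divisors.2 ⟨one_dvd _, by omega⟩) h9
      rw [e]
      refine k.trans ?_
      rw [hW, hRC z]
      have hprod : (0 : ℝ) ≤ ∏ q ∈ (Finset.Icc 3 z).filter Nat.Prime, (1 - (1 : ℝ) / q) := by
        refine Finset.prod_nonneg fun q hq => ?_
        have h10 : (3 : ℝ) ≤ q := by exact_mod_cast (mem_Icc.1 (mem_filter.1 hq).1).1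
        have : (1 : ℝ) / q ≤ 1 := by
          rw [div_le_one (by linarith)]
          linarith
        linarith
      calc (Qz z * ∏ q ∈ (Finset.Icc 3 z).filter Nat.Prime, (1 - (1 : ℝ) / q)) *
          (ε / C0 * (η * X / Qz z * GG X ρ))
          = ε / C0 * (η * X) * (GG X ρ * ∏ q ∈ (Finset.Icc 3 z).filter Nat.Prime,
            (1 - (1 : ℝ) / q)) := by
            field_simp
        _ ≤ ε / C0 * (η * X) * (C0 / Real.log X) := by gcongr
        _ = ε * η * X / Real.log X := by field_simp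
    · rw [hS, mem_filter] at hD
      obtain ⟨hI, ⟨p, hp, hDp⟩, hF, hbad⟩ := hD
      refine ⟨hI, hF, hbad, ?_⟩
      simp only [hR, mem_filter (s := Finset.range (Qz z))]
      refine ⟨mem_range.2 (Nat.mod_lt _ (Qz_pos z)), fun q hq hdvd => ?_⟩
      have hq' := mem_filter.1 hq
      have hq3 := (mem_Icc.1 hq'.1)
      have h1 : q ∣ D := (Nat.dvd_mod_iff ((dvd_pow_self q two_ne_zero).trans (sq_dvd_Qz hq))).1 hdvd
      have h3 : q ∣ p := by
        rcases hDp with h5 | h5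
        · rwa [← h5]
        · rw [h5] at h1
          have hco : Nat.Coprime q 2 := (Nat.coprime_primes hq'.2 Nat.prime_two).2 (by omega)
          exact (Nat.Coprime.pow_right 2 hco).dvd_of_dvd_mul_left h1
      have h4 := (Nat.prime_dvd_prime_iff_eq hq'.2 hp).1 h3
      rw [mem_Ioc] at hI
      rcases hDp with h5 | h5 <;> omega
  exact eventually_atTop.1 h2

end Run7.h784.CG
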