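import Pool.Agent.Run7.h784.CG.ASP
import Pool.Agent.H38R2.CG.NB

/-!
# Project CG2, pieces FINA, FINP: the final theorems
-/

set_option autoImplicit false

namespace Run7.h784.CG

open Finset Filter NumberField Pool.Agent.H38R2.CG Pool.Agent.H38R2.CG2
open scoped Classical

/-- covering by geometric intervals -/
theorem cover (B : ℕ → Prop) (η c : ℝ) (hη : 0 < η) (hη1 : η ≤ 1) (hc : 0 ≤ c) (X1 Z : ℕ)
    (hX1 : 2 ≤ η * X1)
    (h : ∀ X : ℕ, X1 ≤ X → X ≤ Z →
      (((Finset.Ioc X ⌊(1 + η) * X⌋₊).filter B).card : ℝ) ≤ c * η * X) :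
    ∀ m : ℕ, ∀ X : ℕ, Z - X = m → X1 ≤ X → X ≤ Z →
      (((Finset.Ioc X Z).filter B).card : ℝ) ≤ 2 * c * (2 * Z - X) := by
  intro m
  induction m using Nat.strong_induction_on with
  | _ m ih =>
    intro X hm hX hXZ
    have hXr : (X1 : ℝ) ≤ X := by exact_mod_cast hX
    have hXZr : (X : ℝ) ≤ Z := by exact_mod_cast hXZ
    have hX0 : (0 : ℝ) ≤ X := Nat.cast_nonneg _
    have h0 := h X hX hXZ
    have hηX : 2 ≤ η * X := hX1.trans (mul_le_mul_of_nonneg_left hXr hη.le)
    rcases le_or_gt Z ⌊(1 + η) * (X : ℝ)⌋₊ with hZ | hZ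
    · have h1 : (((Finset.Ioc X Z).filter B).card : ℝ) ≤
          (((Finset.Ioc X ⌊(1 + η) * X⌋₊).filter B).card : ℝ) := by
        exact_mod_cast card_le_card (filter_subset_filter _ (Ioc_subset_Ioc le_rfl hZ))
      refine h1.trans (h0.trans ?_)
      have h2 : c * η * X ≤ c * X := by
        have : c * η ≤ c * 1 := mul_le_mul_of_nonneg_left hη1 hc
        nlinarith
      nlinarith
    · set Y : ℕ := ⌊(1 + η) * (X : ℝ)⌋₊ with hY
      have hYlow : (1 + η) * (X : ℝ) - 1 < Y := Nat.sub_one_lt_floor _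
      have hXY : X < Y := by
        have : (X : ℝ) < Y := by linarith
        exact_mod_cast this
      have h1 := ih (Z - Y) (by omega) Y rfl (by omega) hZ.le
      have h2 : (((Finset.Ioc X Z).filter B).card : ℝ) ≤
          (((Finset.Ioc X Y).filter B).card : ℝ) + (((Finset.Ioc Y Z).filter B).card : ℝ) := by
        have h3 : (Finset.Ioc X Z).filter B ⊆
            (Finset.Ioc X Y).filter B ∪ (Finset.Ioc Y Z).filter B := by
          intro D hD
          rw [mem_filter, mem_Ioc] at hD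
          rw [mem_union, mem_filter, mem_filter, mem_Ioc, mem_Ioc]
          rcases le_or_gt D Y with h4 | h4
          · exact Or.inl ⟨⟨hD.1.1, h4⟩, hD.2⟩
          · exact Or.inr ⟨⟨h4, hD.1.2⟩, hD.2⟩
        exact_mod_cast (card_le_card h3).trans (card_union_le _ _)
      have h5 : c * η * X ≤ 2 * c * ((Y : ℝ) - X) := by
        have h6 : η * X ≤ 2 * ((Y : ℝ) - X) := by linarith
        calc c * η * X = c * (η * X) := by ring
          _ ≤ c * (2 * ((Y : ℝ) - X)) := mul_le_mul_of_nonneg_left h6 hc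
          _ = _ := by ring
      linarith

/-- the discriminant of the field of the square root of `d` -/
def dsc (d : ℕ) : ℕ := if d % 4 = 1 then d else 4 * d

theorem dsc_le (d : ℕ) : dsc d ≤ 4 * d := by
  unfold dsc
  split_ifs <;> omega

theorem le_dsc (d : ℕ) : d ≤ dsc d := by
  unfold dsc
  split_ifs <;> omega

theorem dsc_fund {d : ℕ} (h1 : 1 < d) (h2 : Squarefree d) : IsFund (dsc d) := by
  unfold dsc
  split_ifs with h
  · exact ⟨h1, Or.inl ⟨h, h2⟩⟩
  · refine ⟨by omega, Or.inr ⟨d, rfl, ?_, h2⟩⟩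
    have h4 : d % 4 ≠ 0 := by
      intro h0
      have h5 : 2 * 2 ∣ d := by
        have : 4 ∣ d := Nat.dvd_of_mod_eq_zero h0
        exact this
      have := h2 2 h5
      exact absurd (Nat.isUnit_iff.1 this) (by norm_num)
    omega

theorem dsc_inj {d e : ℕ} (h : dsc d = dsc e) : d = e := by
  unfold dsc at h
  split_ifs at h <;> omega

/-- `d` is bad -/
def Bd (a : ℝ) (d : ℕ) : Prop := 1 < d ∧ Squarefree d ∧ ¬ GoodA a d

/-- a bad `d` gives a bad discriminant -/
theorem bad_dsc (hN0d : P_N0d) {a : ℝ} (ha : 2 < a) : ∀ᶠ X : ℕ in atTop, ∀ d : ℕ,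
    Bd a d → X < dsc d → IsFund (dsc d) ∧ BadA a X (dsc d) := by
  filter_upwards [tendsto_log.eventually_ge_atTop (2 * a * Real.log 4 + 1),
    eventually_ge_atTop 1] with X hX hX1 d hd hXd
  obtain ⟨h1, h2, h3⟩ := hd
  refine ⟨dsc_fund h1 h2, ?_⟩
  unfold GoodA at h3
  push Not at h3
  obtain ⟨K, _, _, hK, hx, hbad⟩ := h3
  refine ⟨K, inferInstance, inferInstance, hK, ?_, ?_⟩
  · rw [hN0d K d h1 h2 hK hx]
    unfold dsc
    split_ifs <;> push_cast <;> ring
  · intro hgood
    apply hbad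
    have hle : (Real.log X) ^ a / 2 ≤ (Real.log d) ^ a := by
      have hXp : (0 : ℝ) < X := by exact_mod_cast hX1
      have hd0 : (0 : ℝ) < d := by
        have : 0 < d := by omega
        exact_mod_cast this
      have hlog4 : 0 < Real.log 4 := Real.log_pos (by norm_num)
      have h4 : Real.log X - Real.log 4 ≤ Real.log d := by
        rw [← Real.log_div hXp.ne' (by norm_num)]
        apply Real.log_le_log (by positivity)
        rw [div_le_iff₀ (by norm_num)]
        have h5 : X ≤ d * 4 := by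
          have := dsc_le d
          omega
        exact_mod_cast h5
      set l : ℝ := Real.log X with hl
      have hl0 : 0 < l := by nlinarith
      have h6 : (1 : ℝ) / 2 ≤ (1 + -(Real.log 4 / l)) ^ a := by
        have h7 : Real.log 4 / l ≤ 1 / (2 * a) := by
          rw [div_le_div_iff₀ hl0 (by linarith)]
          nlinarith
        have h8 : 1 / (2 * a) ≤ 1 := by
          rw [div_le_one (by linarith)]
          linarith
        have h9 := one_add_mul_self_le_rpow_one_add (s := -(Real.log 4 / l)) (by linarith)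
          (p := a) (by linarith)
        have h10 : a * (Real.log 4 / l) ≤ 1 / 2 := by
          calc a * (Real.log 4 / l) ≤ a * (1 / (2 * a)) :=
                mul_le_mul_of_nonneg_left h7 (by linarith)
            _ = 1 / 2 := by field_simp
        linarith
      have h11 : l - Real.log 4 = l * (1 + -(Real.log 4 / l)) := by
        field_simp
        ring
      have h12 : 0 ≤ 1 + -(Real.log 4 / l) := by
        have : Real.log 4 / l ≤ 1 := by
          rw [div_le_one hl0]
          nlinarith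
        linarith
      calc l ^ a / 2 = l ^ a * (1 / 2) := by ring
        _ ≤ l ^ a * (1 + -(Real.log 4 / l)) ^ a := mul_le_mul_of_nonneg_left h6 (by positivity)
        _ = (l - Real.log 4) ^ a := by rw [h11, Real.mul_rpow hl0.le h12]
        _ ≤ (Real.log d) ^ a := by
            apply Real.rpow_le_rpow _ h4 (by linarith)
            rw [h11]
            exact mul_nonneg hl0.le h12
    unfold SmallGen at hgood ⊢
    rw [eq_top_iff] at hgood ⊢
    refine hgood.trans (Subgroup.closure_mono ?_)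
    rintro c ⟨P, hP1, hP2, hP3⟩
    exact ⟨P, hP1, hP2.trans hle, hP3⟩

/-- counting bad `d` with a further property through their discriminants -/
theorem count (a : ℝ) (Q : ℕ → Prop) (W Y : ℕ) :
    ((Finset.Icc 2 Y).filter (fun d => Q d ∧ Bd a d)).card ≤ W +
      ((Finset.Ioc W (4 * Y)).filter (fun D => ∃ d, dsc d = D ∧ Q d ∧ Bd a d)).card := by
  have h1 : (Finset.Icc 2 Y).filter (fun d => Q d ∧ Bd a d) ⊆
      Finset.Icc 1 W ∪ (Finset.Icc 2 Y).filter (fun d => W < dsc d ∧ Q d ∧ Bd a d) := by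
    intro d hd
    rw [mem_filter, mem_Icc] at hd
    rw [mem_union, mem_Icc, mem_filter, mem_Icc]
    rcases le_or_gt (dsc d) W with h | h
    · left
      have := le_dsc d
      omega
    · exact Or.inr ⟨hd.1, h, hd.2⟩
  have h2 : ((Finset.Icc 2 Y).filter (fun d => W < dsc d ∧ Q d ∧ Bd a d)).card ≤
      ((Finset.Ioc W (4 * Y)).filter (fun D => ∃ d, dsc d = D ∧ Q d ∧ Bd a d)).card := by
    apply Finset.card_le_card_of_injOn dsc
    · intro d hd
      simp only [coe_filter, Set.mem_ofPred_eq, mem_Icc] at hd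
      simp only [coe_filter, Set.mem_ofPred_eq, mem_Ioc]
      have := dsc_le d
      exact ⟨⟨hd.2.1, by omega⟩, d, rfl, hd.2.2⟩
    · intro d _ e _ h
      exact dsc_inj h
  calc ((Finset.Icc 2 Y).filter (fun d => Q d ∧ Bd a d)).card
      ≤ (Finset.Icc 1 W ∪ (Finset.Icc 2 Y).filter
        (fun d => W < dsc d ∧ Q d ∧ Bd a d)).card := card_le_card h1
    _ ≤ (Finset.Icc 1 W).card + ((Finset.Icc 2 Y).filter
        (fun d => W < dsc d ∧ Q d ∧ Bd a d)).card := card_union_le _ _
    _ ≤ _ := by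
        rw [Nat.card_Icc]
        omega

/-- no further condition -/
def QT : ℕ → Prop := fun _ => True

/-- primality -/
def QP : ℕ → Prop := fun p => p.Prime

theorem T2_FINA (hAS1 : P2_AS1) (hN0d : P_N0d) : FinalAll := by
  intro a ha
  rw [Metric.tendsto_atTop]
  intro e he
  -- constants
  set ε : ℝ := e / 64 with hε
  have hε0 : 0 < ε := by positivity
  obtain ⟨η, hη, hη1, X0, hX0⟩ := hAS1 a ha ε hε0
  obtain ⟨X2, hX2⟩ := eventually_atTop.1 (bad_dsc hN0d ha)
  set X1 : ℕ := max (max X0 X2) ⌈2 / η⌉₊ with hX1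
  have hX1η : 2 ≤ η * X1 := by
    have h1 : 2 / η ≤ X1 := (Nat.le_ceil _).trans (by exact_mod_cast le_max_right _ _)
    rw [div_le_iff₀ hη] at h1
    linarith
  refine ⟨⌈2 * (X1 : ℝ) / e⌉₊ + X1 + 1, fun Y hY => ?_⟩
  have hY1 : 2 * (X1 : ℝ) / e ≤ Y := by
    have h1 : ((⌈2 * (X1 : ℝ) / e⌉₊ + X1 + 1 : ℕ) : ℝ) ≤ Y := by exact_mod_cast hY
    push_cast at h1
    have h2 := Nat.le_ceil (2 * (X1 : ℝ) / e)
    have h3 : (0 : ℝ) ≤ X1 := Nat.cast_nonneg _
    linarith
  have hYX : X1 ≤ Y := by omega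
  have hY0 : (0 : ℝ) < Y := by
    have : 0 < Y := by omega
    exact_mod_cast this
  have e1 : (Finset.Icc 2 Y).filter (fun d => Squarefree d ∧ ¬ GoodA a d) =
      (Finset.Icc 2 Y).filter (fun d => QT d ∧ Bd a d) := by
    ext d
    simp only [mem_filter, mem_Icc, Bd, QT, true_and]
    constructor
    · rintro ⟨⟨h1, h2⟩, h3, h4⟩
      exact ⟨⟨h1, h2⟩, by omega, h3, h4⟩
    · rintro ⟨⟨h1, h2⟩, -, h3, h4⟩
      exact ⟨⟨h1, h2⟩, h3, h4⟩
  have h5 := (Nat.cast_le (α := ℝ)).2 (count a QT X1 Y)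
  rw [Nat.cast_add] at h5
  have h6 := cover (fun D => ∃ d, dsc d = D ∧ QT d ∧ Bd a d) η ε hη hη1 hε0.le X1 (4 * Y) hX1η
    (fun X hXX1 _ => by
      refine le_trans ?_ (hX0 X ((le_max_left _ _).trans ((le_max_left _ _).trans hXX1)))
      have h7 : (Finset.Ioc X ⌊(1 + η) * X⌋₊).filter (fun D => ∃ d, dsc d = D ∧ QT d ∧ Bd a d) ⊆
          (Finset.Ioc X ⌊(1 + η) * X⌋₊).filter (fun D => IsFund D ∧ BadA a X D) := by
        intro D hD
        rw [mem_filter] at hD ⊢
        obtain ⟨hI, d, rfl, -, hd⟩ := hD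
        exact ⟨hI, hX2 X ((le_max_right _ _).trans ((le_max_left _ _).trans hXX1)) d hd
          (mem_Ioc.1 hI).1⟩
      exact_mod_cast card_le_card h7)
    (4 * Y - X1) X1 rfl le_rfl (by omega)
  rw [e1, Real.dist_eq, sub_zero, abs_of_nonneg (by positivity), div_lt_iff₀ hY0]
  have h8 : ((((Finset.Icc 2 Y).filter (fun d => QT d ∧ Bd a d)).card : ℕ) : ℝ) ≤ X1 +
      2 * ε * (2 * (4 * Y : ℕ) - X1) := by
    linarith
  have h9 : (X1 : ℝ) ≤ e / 2 * Y := by
    rw [div_le_iff₀ he] at hY1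
    linarith
  have h10 : 2 * ε * (2 * ((4 * Y : ℕ) : ℝ) - X1) ≤ e / 4 * Y := by
    have h3 : (0 : ℝ) ≤ X1 := Nat.cast_nonneg _
    push_cast
    rw [hε]
    nlinarith
  nlinarith

/-- number of primes up to `Y` -/
theorem primes_lower : ∀ᶠ Y : ℕ in atTop, (Y : ℝ) / (4 * Real.log Y) ≤
    (((Finset.Icc 2 Y).filter Nat.Prime).card : ℝ) := by
  obtain ⟨y0, hy0⟩ := T_NB.2
  filter_upwards [eventually_ge_atTop (2 * y0 + 100)] with Y hY
  have h1 := (hy0 (Y / 2) (by omega)).1
  have h2 : ((PP (Y / 2)).card : ℝ) ≤ (((Finset.Icc 2 Y).filter Nat.Prime).card : ℝ) := by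
    have : PP (Y / 2) ⊆ (Finset.Icc 2 Y).filter Nat.Prime := by
      intro p hp
      unfold PP at hp
      rw [mem_filter, mem_Ioc] at hp
      rw [mem_filter, mem_Icc]
      exact ⟨⟨hp.2.two_le, by omega⟩, hp.2⟩
    exact_mod_cast card_le_card this
  refine le_trans ?_ (h1.trans h2)
  have hY0 : (100 : ℝ) ≤ Y := by
    have : 100 ≤ Y := by omega
    exact_mod_cast this
  have h3 : (Y : ℝ) / 2 - 1 / 2 ≤ ((Y / 2 : ℕ) : ℝ) := by
    have h4 : Y ≤ 2 * (Y / 2) + 1 := by omega
    have h5 : (Y : ℝ) ≤ 2 * ((Y / 2 : ℕ) : ℝ) + 1 := by exact_mod_cast h4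
    linarith
  have h6 : Real.log ((Y / 2 : ℕ) : ℝ) ≤ Real.log Y := by
    apply Real.log_le_log
    · linarith
    · exact_mod_cast Nat.div_le_self _ _
  have h7 : 0 < Real.log ((Y / 2 : ℕ) : ℝ) := Real.log_pos (by linarith)
  calc (Y : ℝ) / (4 * Real.log Y) ≤ (9 / 10 * ((Y / 2 : ℕ) : ℝ)) / Real.log Y := by
        rw [div_le_div_iff₀ (by linarith) (by linarith)]
        have h8 : (0 : ℝ) < Real.log Y := by linarith
        have : (Y : ℝ) ≤ 9 / 10 * ((Y / 2 : ℕ) : ℝ) * 4 := by linarith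
        calc (Y : ℝ) * Real.log Y ≤ (9 / 10 * ((Y / 2 : ℕ) : ℝ) * 4) * Real.log Y :=
              mul_le_mul_of_nonneg_right this h8.le
          _ = _ := by ring
    _ ≤ 9 / 10 * ((Y / 2 : ℕ) : ℝ) / Real.log ((Y / 2 : ℕ) : ℝ) := by
        apply div_le_div_of_nonneg_left (by positivity) h7 h6

theorem T2_FINP (hAP : P2_AP) (hN0d : P_N0d) : FinalPrimes := by
  intro a ha
  rw [Metric.tendsto_atTop]
  intro e he
  set ε : ℝ := e / 1024 with hε
  have hε0 : 0 < ε := by positivity
  obtain ⟨η, hη, hη1, X0, hX0⟩ := hAP a ha ε hε0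
  obtain ⟨X2, hX2⟩ := eventually_atTop.1 (bad_dsc hN0d ha)
  set X1 : ℕ := max (max X0 X2) ⌈2 / η⌉₊ with hX1
  have hX1η : 2 ≤ η * X1 := by
    have h1 : 2 / η ≤ X1 := (Nat.le_ceil _).trans (by exact_mod_cast le_max_right _ _)
    rw [div_le_iff₀ hη] at h1
    linarith
  -- log Y / Y ^ (1/2) tends to zero
  have t1 : Tendsto (fun Y : ℕ => Real.log Y / (Y : ℝ) ^ (1 / 2 : ℝ)) atTop (nhds 0) := by
    have h := (isLittleO_log_rpow_atTop (r := 1 / 2) (by norm_num)).tendsto_div_nhds_zero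
    exact h.comp tendsto_natCast_atTop_atTop
  have hsmall : 0 < e / (16 * (X1 + 3)) := by positivity
  have key : ∀ᶠ Y : ℕ in atTop,
      dist ((((Finset.Icc 2 Y).filter (fun p => p.Prime ∧ ¬ GoodA a p)).card : ℝ) /
      (((Finset.Icc 2 Y).filter Nat.Prime).card : ℝ)) 0 < e := by
    filter_upwards [primes_lower, t1.eventually_lt_const hsmall,
      eventually_ge_atTop (X1 + 16), tendsto_log.eventually_ge_atTop 2] with Y hpi hY1 hY2 hlog
    have hYr : (16 : ℝ) ≤ Y := by
      have : 16 ≤ Y := by omega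
      exact_mod_cast this
    have hY0 : (0 : ℝ) < Y := by linarith
    set l : ℝ := Real.log Y with hl
    set W : ℕ := max X1 ⌈√(Y : ℝ)⌉₊ with hW
    have hs0 : 0 ≤ √(Y : ℝ) := Real.sqrt_nonneg _
    have hs4 : 4 ≤ √(Y : ℝ) := by
      apply Real.le_sqrt_of_sq_le
      linarith
    have hss : √(Y : ℝ) * √(Y : ℝ) = Y := Real.mul_self_sqrt hY0.le
    have hWr : (W : ℝ) ≤ (X1 + 2) * √(Y : ℝ) := by
      rw [hW]
      push_cast
      apply max_le
      · have h3 : (0 : ℝ) ≤ X1 := Nat.cast_nonneg _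
        nlinarith
      · have h4 := (Nat.ceil_lt_add_one hs0).le
        have h3 : (0 : ℝ) ≤ X1 := Nat.cast_nonneg _
        nlinarith
    have hW4 : W ≤ 4 * Y := by
      rw [hW]
      apply max_le (by omega)
      apply Nat.ceil_le.2
      push_cast
      nlinarith
    have e1 : (Finset.Icc 2 Y).filter (fun p => p.Prime ∧ ¬ GoodA a p) =
        (Finset.Icc 2 Y).filter (fun d => QP d ∧ Bd a d) := by
      ext d
      simp only [mem_filter, mem_Icc, Bd, QP]
      constructor
      · rintro ⟨⟨h1, h2⟩, h3, h4⟩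
        exact ⟨⟨h1, h2⟩, h3, by omega, h3.squarefree, h4⟩
      · rintro ⟨⟨h1, h2⟩, h3, -, -, h4⟩
        exact ⟨⟨h1, h2⟩, h3, h4⟩
    have h5 := (Nat.cast_le (α := ℝ)).2 (count a QP W Y)
    rw [Nat.cast_add] at h5
    have h6 := cover (fun D => ∃ d, dsc d = D ∧ QP d ∧ Bd a d) η (2 * ε / l) hη hη1
      (by positivity) W (4 * Y)
      (hX1η.trans (mul_le_mul_of_nonneg_left (by exact_mod_cast le_max_left _ _) hη.le))
      (fun X hXW _ => by
        have hXX1 : X1 ≤ X := (le_max_left _ _).trans hXW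
        have hXs : √(Y : ℝ) ≤ X := by
          have h7 : (⌈√(Y : ℝ)⌉₊ : ℝ) ≤ X := by exact_mod_cast (le_max_right _ _).trans hXW
          exact (Nat.le_ceil _).trans h7
        have h9 : l / 2 ≤ Real.log X := by
          have h10 : Real.log (√(Y : ℝ)) = l / 2 := by rw [Real.log_sqrt hY0.le]
          rw [← h10]
          exact Real.log_le_log (by linarith) hXs
        refine le_trans ?_ ((hX0 X ((le_max_left _ _).trans ((le_max_left _ _).trans hXX1))).trans ?_)
        · have h7 : (Finset.Ioc X ⌊(1 + η) * X⌋₊).filter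
              (fun D => ∃ d, dsc d = D ∧ QP d ∧ Bd a d) ⊆
              (Finset.Ioc X ⌊(1 + η) * X⌋₊).filter (fun D => (∃ p : ℕ, p.Prime ∧
                (D = p ∨ D = 4 * p)) ∧ IsFund D ∧ BadA a X D) := by
            intro D hD
            rw [mem_filter] at hD ⊢
            obtain ⟨hI, d, rfl, hp, hd⟩ := hD
            refine ⟨hI, ⟨d, hp, ?_⟩, hX2 X ((le_max_right _ _).trans
              ((le_max_left _ _).trans hXX1)) d hd (mem_Ioc.1 hI).1⟩
            unfold dsc
            split_ifs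
            · exact Or.inl rfl
            · exact Or.inr rfl
          exact_mod_cast card_le_card h7
        · have h11 : (0 : ℝ) ≤ ε * η * X := by positivity
          calc ε * η * X / Real.log X ≤ ε * η * X / (l / 2) :=
                div_le_div_of_nonneg_left h11 (by linarith) h9
            _ = 2 * ε / l * η * X := by field_simp)
      (4 * Y - W) W rfl le_rfl hW4
    have hpi0 : (0 : ℝ) < Y / (4 * l) := by positivity
    rw [e1, Real.dist_eq, sub_zero, abs_of_nonneg (by positivity),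
      div_lt_iff₀ (lt_of_lt_of_le hpi0 hpi)]
    refine lt_of_lt_of_le ?_ (mul_le_mul_of_nonneg_left hpi he.le)
    have h8 : ((((Finset.Icc 2 Y).filter (fun d => QP d ∧ Bd a d)).card : ℕ) : ℝ) ≤ W +
        2 * (2 * ε / l) * (2 * (4 * Y : ℕ) - W) := by
      linarith
    refine lt_of_le_of_lt h8 ?_
    have h12 : 2 * (2 * ε / l) * (2 * ((4 * Y : ℕ) : ℝ) - W) ≤ 32 * ε * Y / l := by
      have h3 : (0 : ℝ) ≤ W := Nat.cast_nonneg _
      push_cast
      have h13 : 2 * (2 * ε / l) * (2 * (4 * Y) - W) ≤ 2 * (2 * ε / l) * (2 * (4 * (Y : ℝ))) :=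
        mul_le_mul_of_nonneg_left (by linarith) (by positivity)
      refine h13.trans (le_of_eq ?_)
      ring
    have h14 : (W : ℝ) < e * (Y / (8 * l)) := by
      have h15 : Real.log Y < e / (16 * (X1 + 3)) * (Y : ℝ) ^ (1 / 2 : ℝ) := by
        rwa [div_lt_iff₀ (by positivity)] at hY1
      rw [← Real.sqrt_eq_rpow] at h15
      have h3 : (0 : ℝ) ≤ X1 := Nat.cast_nonneg _
      have h16 : l * (16 * (X1 + 3)) < e * √(Y : ℝ) := by
        have : e / (16 * ((X1 : ℝ) + 3)) * √(Y : ℝ) * (16 * (X1 + 3)) = e * √(Y : ℝ) := by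
          field_simp
        rw [← this]
        exact mul_lt_mul_of_pos_right h15 (by positivity)
      rw [mul_div_assoc', lt_div_iff₀ (by positivity)]
      calc (W : ℝ) * (8 * l) ≤ ((X1 + 2) * √(Y : ℝ)) * (8 * l) :=
            mul_le_mul_of_nonneg_right hWr (by positivity)
        _ = (l * (8 * (X1 + 2))) * √(Y : ℝ) := by ring
        _ ≤ (l * (16 * (X1 + 3))) * √(Y : ℝ) := by
            apply mul_le_mul_of_nonneg_right _ hs0
            apply mul_le_mul_of_nonneg_left _ (by linarith)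
            linarith
        _ < (e * √(Y : ℝ)) * √(Y : ℝ) := mul_lt_mul_of_pos_right h16 (by linarith)
        _ = e * Y := by rw [mul_assoc, hss]
    calc (W : ℝ) + 2 * (2 * ε / l) * (2 * ((4 * Y : ℕ) : ℝ) - W)
        < e * (Y / (8 * l)) + 32 * ε * Y / l := by linarith
      _ = e * (Y / (8 * l)) + e * (Y / (32 * l)) := by
          rw [hε]
          field_simp
          ring
      _ ≤ e * (Y / (8 * l)) + e * (Y / (8 * l)) := by
          gcongr
          norm_num
      _ = e * (Y / (4 * l)) := by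
          field_simp
          ring
  obtain ⟨Y0, hY0⟩ := eventually_atTop.1 key
  exact ⟨Y0, hY0⟩

end Run7.h784.CG
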