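import Pool.Agent.Run7.h784.CG.Basic

/-!
# Project CG2, piece TM: the near collision bound, assembly
-/

set_option autoImplicit false

namespace Run7.h784.CG

open Finset Filter NumberField Pool.Agent.H38R2.CG Pool.Agent.H38R2.CG2
open scoped Classical

theorem prodS_split (s t : Finset ℕ) : prodS s * prodS t =
    prodS (s ∩ t) ^ 2 * (prodS (s \ t) * prodS (t \ s)) := by
  have h1 : prodS (s ∩ t) * prodS (s \ t) = prodS s := Finset.prod_inter_mul_prod_sdiff s t _
  have h2 : prodS (t ∩ s) * prodS (t \ s) = prodS t := Finset.prod_inter_mul_prod_sdiff t s _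
  rw [← h1, ← h2, inter_comm t s]
  ring

theorem sum_card (P : Finset ℕ) (k j : ℕ) (f : ℕ → ℝ) (hf : ∀ i, 0 ≤ f i) :
    ∑ c ∈ P.powerset.filter (fun c => c.card ≤ k), (if j ≤ c.card then f c.card else 0) ≤
      ∑ i ∈ Icc j k, (P.card.choose i : ℝ) * f i := by
  rw [sum_filter]
  have h := Finset.sum_powerset_apply_card
    (fun i => if i ≤ k then (if j ≤ i then f i else 0) else (0 : ℝ)) (x := P)
  rw [h]
  have e : ∀ m ∈ range (P.card + 1), P.card.choose m •
      (if m ≤ k then (if j ≤ m then f m else 0) else (0 : ℝ)) =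
      if m ∈ Icc j k then (P.card.choose m : ℝ) * f m else 0 := by
    intro m _
    by_cases h1 : m ≤ k <;> by_cases h2 : j ≤ m <;> simp [h1, h2]
  rw [sum_congr rfl e, ← sum_filter]
  refine sum_le_sum_of_subset_of_nonneg ?_ ?_
  · intro i hi
    exact (mem_filter.1 hi).2
  · intro i _ _
    exact mul_nonneg (Nat.cast_nonneg _) (hf i)

theorem ev_small (b : ℝ) (hb : 0 < b) (C0 : ℕ) (c1 : ℝ) (hc1 : 0 < c1) :
    ∃ i0 : ℕ, ∀ᶠ X : ℕ in atTop, ∀ x : ℝ, 0 ≤ x → x ≤ 24 * (Real.log X) ^ (-b) →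
      x ≤ 1 ∧ x ≤ c1 ∧ (1 + Real.log X) ^ (2 * C0) * x ^ (i0 + 1) ≤ c1 := by
  refine ⟨⌈(2 * C0 + 1) / b⌉₊, ?_⟩
  set i0 : ℕ := ⌈(2 * (C0 : ℝ) + 1) / b⌉₊ with hi0
  have hi : (2 * (C0 : ℝ) + 1) ≤ b * ((i0 + 1 : ℕ) : ℝ) := by
    have h1 := Nat.le_ceil ((2 * (C0 : ℝ) + 1) / b)
    rw [← hi0, div_le_iff₀ hb] at h1
    push_cast
    nlinarith
  have t1 : Tendsto (fun X : ℕ => 24 * (Real.log X) ^ (-b)) atTop (nhds 0) := by
    have := ((tendsto_rpow_neg_atTop hb).comp tendsto_log).const_mul 24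
    simpa using this
  have t2 : Tendsto (fun X : ℕ => (4 ^ C0 * 24 ^ (i0 + 1) : ℝ) * (Real.log X) ^ (-(1 : ℝ))) atTop
      (nhds 0) := by
    have := ((tendsto_rpow_neg_atTop (y := 1) one_pos).comp tendsto_log).const_mul
      (4 ^ C0 * 24 ^ (i0 + 1) : ℝ)
    simpa using this
  filter_upwards [t1.eventually_le_const (lt_min one_pos hc1), t2.eventually_le_const hc1,
    tendsto_log.eventually_ge_atTop 1] with X h1 h2 h3 x hx hx2
  have h4 : x ≤ min 1 c1 := hx2.trans h1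
  refine ⟨h4.trans (min_le_left _ _), h4.trans (min_le_right _ _), ?_⟩
  set l : ℝ := Real.log X with hl
  have hl0 : 0 < l := by linarith
  have h5 : (1 + l) ^ (2 * C0) ≤ 4 ^ C0 * l ^ (2 * C0) := by
    calc (1 + l) ^ (2 * C0) ≤ (2 * l) ^ (2 * C0) := pow_le_pow_left₀ (by linarith) (by linarith) _
      _ = 4 ^ C0 * l ^ (2 * C0) := by rw [mul_pow, pow_mul]; norm_num
  have h6 : x ^ (i0 + 1) ≤ 24 ^ (i0 + 1) * l ^ (-(2 * (C0 : ℝ) + 1)) := by
    calc x ^ (i0 + 1) ≤ (24 * l ^ (-b)) ^ (i0 + 1) := pow_le_pow_left₀ hx hx2 _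
      _ = 24 ^ (i0 + 1) * l ^ (-b * ((i0 + 1 : ℕ) : ℝ)) := by
          rw [mul_pow, ← Real.rpow_natCast (l ^ (-b)), ← Real.rpow_mul hl0.le]
      _ ≤ _ := by
          apply mul_le_mul_of_nonneg_left _ (by positivity)
          exact Real.rpow_le_rpow_of_exponent_le h3 (by linarith)
  calc (1 + l) ^ (2 * C0) * x ^ (i0 + 1)
      ≤ (4 ^ C0 * l ^ (2 * C0)) * (24 ^ (i0 + 1) * l ^ (-(2 * (C0 : ℝ) + 1))) :=
        mul_le_mul h5 h6 (by positivity) (by positivity)
    _ = (4 ^ C0 * 24 ^ (i0 + 1)) * l ^ (-(1 : ℝ)) := by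
        have e : l ^ (-(1 : ℝ)) = l ^ (2 * C0) * l ^ (-(2 * (C0 : ℝ) + 1)) := by
          rw [← Real.rpow_natCast l (2 * C0), ← Real.rpow_add hl0]
          congr 1
          push_cast
          ring
        rw [e]
        ring
    _ ≤ c1 := h2

theorem MT_nonneg (hTB2 : P_TB2) (hJP : P2_JP) {a : ℝ} {z r X C0 : ℕ} {η : ℝ} {ρ : ℕ → ℝ}
    (hX : 1 ≤ X) (hη : 0 < η) (hη1 : η ≤ 1) (hρ : SWt z X (PA a X) (cc a) C0 ρ)
    {c s t : Finset ℕ} (hc : c ⊆ PA a X) (hs : s ⊆ PA a X) (ht : t ⊆ PA a X) :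
    0 ≤ MT a z r X η ρ c s t := by
  unfold MT
  have hn : 0 < prodS c ^ 2 * (prodS s * prodS t) := by
    have h1 := prodS_pos (s := c) fun p hp => (mem_PA (hc hp)).1
    have h2 := prodS_pos (s := s) fun p hp => (mem_PA (hs hp)).1
    have h3 := prodS_pos (s := t) fun p hp => (mem_PA (ht hp)).1
    positivity
  refine sum_nonneg fun v _ => ?_
  have h1 := (hTB2 X η hX hη hη1 ((prodS c ^ 2 * (prodS s * prodS t) : ℕ) : ℝ)
    (by exact_mod_cast hn)).2.1 v
  have h2 := hJP z X (PA a X) (cc a) C0 ρ c (prodS s * prodS t) v hρ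
  positivity

theorem T2_TM (hT1 : P2_T1) (hT2 : P2_T2) (hERR : P2_ERR) (hPAIR : P2_PAIR) (hCOMB : P2_COMB)
    (hTMa : P2_TMa) (hTMb : P2_TMb) (hTMc : P2_TMc) (hSZ : P2_SZ) (hNB : P2_NB) (hJP : P2_JP)
    (hTB2 : P_TB2) : P2_TM := by
  intro a ha z r hz hr η hη hη1 C0 hC0 ε hε
  set P0 : ℝ := PiR z r / (2 * Qz z) with hP0
  have hQ : (0 : ℝ) < Qz z := by exact_mod_cast Qz_pos z
  have hP0p : 0 < P0 := div_pos (PiR_pos z r) (by positivity)
  set c1 : ℝ := ε * P0 / (12 * 2 ^ (z + 6)) with hc1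
  have hc1p : 0 < c1 := by positivity
  obtain ⟨i0, hi0⟩ := ev_small ((a - 2) / 2) (by linarith) C0 c1 hc1p
  obtain ⟨X0, hX0⟩ := eventually_atTop.1 hi0
  obtain ⟨X1, hX1⟩ := hERR a ha z r hr η hη hη1 C0 hC0 (η * (ε / 4) * P0) (by positivity)
  obtain ⟨X2, hX2⟩ := hTMa a ha z r hz hr η hη hη1 C0 hC0 (ε / 4) (by positivity)
  obtain ⟨X3, hX3⟩ := hTMb a ha z r hz hr η hη hη1 C0 i0 hC0
  obtain ⟨X4, hX4⟩ := hTMc a ha z r hz hr η hη hη1 C0 hC0
  obtain ⟨X5, hX5⟩ := hSZ a ha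
  obtain ⟨X6, hX6⟩ := hNB a ha 1 one_pos
  obtain ⟨X7, hX7⟩ := eventually_atTop.1 (PA_ev (a := a) (by linarith) z)
  refine ⟨max (max (max X0 X1) (max X2 X3)) (max (max X4 X5) (max (max X6 X7) 16)),
    fun X hX ρ hρ => ?_⟩
  simp only [ge_iff_le, max_le_iff] at hX
  obtain ⟨⟨⟨h0, h1⟩, h2, h3⟩, ⟨h4, h5⟩, ⟨h6, h7⟩, h8⟩ := hX
  have K0 := hX0 X h0
  have K1 := hX1 X h1 ρ hρ
  have K2 := hX2 X h2 ρ hρ
  have K3 := hX3 X h3 ρ hρ
  have K4 := hX4 X h4 ρ hρ
  have K5 := hX5 X h5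
  obtain ⟨nb1, nb2, nb3, nb4, nb5, nb6, nb7, nb8⟩ := hX6 X h6
  have K7 := hX7 X h7
  have hXr : (16 : ℝ) ≤ X := by exact_mod_cast h8
  have hXp : (0 : ℝ) < X := by linarith
  have hX1' : 1 ≤ X := by omega
  have hccp := cc_pos ha
  have hccl := cc_lt ha
  set k : ℕ := kA a X with hk
  set n : ℕ := (PA a X).card with hn
  set N : ℝ := NA a X with hN
  have hNe : N = (n.choose k : ℝ) := rfl
  have hN0 : 0 < N := lt_of_lt_of_le (by positivity) nb2
  have hlog1 : 1 ≤ Real.log X := by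
    rw [Real.le_log_iff_exp_le hXp]
    linarith [Real.exp_one_lt_d9]
  have hG : 0 < GG X ρ := lt_of_lt_of_le (by positivity) hρ.low
  have hk1 : 1 ≤ k := by
    have h9 : (1 : ℝ) ≤ k := le_trans (by
      rw [show (1 : ℝ) = √1 by simp]
      exact Real.sqrt_le_sqrt hlog1) nb5
    exact_mod_cast h9
  have hkn : 2 * k ≤ n := by nlinarith
  have hn1 : 1 ≤ n := by omega
  have hnR : (0 : ℝ) < n := by exact_mod_cast hn1
  -- the parameter x
  set x : ℝ := 4 * 6 * (k : ℝ) ^ 2 / n with hx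
  have hx0 : 0 ≤ x := by positivity
  have hxle : x ≤ 24 * (Real.log X) ^ (-((a - 2) / 2)) := by
    rw [hx, div_le_iff₀ hnR]
    have := nb1
    nlinarith
  obtain ⟨hx1, hxc, hxL⟩ := K0 x hx0 hxle
  have hex : Real.exp x ≤ 3 := by
    calc Real.exp x ≤ Real.exp 1 := Real.exp_le_exp.2 hx1
      _ ≤ 3 := by linarith [Real.exp_one_lt_d9]
  have hPA : ∀ p ∈ PA a X, p.Prime ∧ ¬ p ∣ Qz z := fun p hp => ⟨(K7 p hp).1, (K7 p hp).2.1⟩
  have hsub : ∀ s ∈ SA a X, s ⊆ PA a X ∧ s.card = k := fun s hs => mem_powersetCard.1 hs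
  -- the function A
  set A : Finset ℕ → Finset ℕ → Finset ℕ → ℝ := fun c s t =>
    2 ^ c.card * MT a z r X η ρ c s t with hA
  have hA0 : ∀ c s t, c ⊆ PA a X → s ⊆ PA a X → t ⊆ PA a X → 0 ≤ A c s t :=
    fun c s t hc hs ht => mul_nonneg (by positivity)
      (MT_nonneg hTB2 hJP hX1' hη hη1 hρ hc hs ht)
  -- step 1: each pair
  have step1 : ∀ s ∈ SA a X, ∀ t ∈ SA a X,
      2 ^ ((s ∩ t).card) * ∑ D ∈ DD z r X η, wt ρ D * Rsum D (prodS s * prodS t) ≤
      2 ^ ((s ∩ t).card) *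
      ((if IsSquare (prodS s * prodS t) then ∑ D ∈ DD z r X η, wt ρ D else 0) +
      2 * ∑ v ∈ Finset.Icc 1 ⌊2 * √(((prodS s * prodS t : ℕ) : ℝ) / X)⌋₊,
        ∑ d ∈ Finset.Icc 1 X, |ρ d| * (RR z r (prodS s * prodS t) v d : ℝ)) +
      2 * A (s ∩ t) (s \ t) (t \ s) := by
    intro s hs t ht
    obtain ⟨hsP, hsk⟩ := hsub s hs
    obtain ⟨htP, htk⟩ := hsub t ht
    have hps : 0 < prodS s := prodS_pos fun p hp => (K7 p (hsP hp)).1
    have hpt : 0 < prodS t := prodS_pos fun p hp => (K7 p (htP hp)).1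
    have hn0 : 1 ≤ prodS s * prodS t := Nat.mul_pos hps hpt
    have q1 := hT1 z r X (prodS s * prodS t) η (PA a X) (cc a) C0 ρ hr.1 hη hη1 hX1' hn0
      (by linarith) hρ
    have q2 : ∑ v ∈ Finset.Icc 1 ⌊2 * √(((prodS s * prodS t : ℕ) : ℝ) / X)⌋₊,
        (om X η v (prodS s * prodS t : ℕ) / Qz z *
          ∑ d ∈ Finset.Icc 1 X, ρ d / d * (RR z r (prodS s * prodS t) v d : ℝ)) ≤
        MT a z r X η ρ (s ∩ t) (s \ t) (t \ s) := by
      unfold MT
      have e := prodS_split s t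
      have hn2 : 0 < prodS (s ∩ t) ^ 2 * (prodS (s \ t) * prodS (t \ s)) := by
        rw [← e]; exact hn0
      have tb := hTB2 X η hX1' hη hη1
        ((prodS (s ∩ t) ^ 2 * (prodS (s \ t) * prodS (t \ s)) : ℕ) : ℝ) (by exact_mod_cast hn2)
      refine le_trans (sum_le_sum (g := fun v : ℕ =>
        om X η (v : ℝ) (prodS (s ∩ t) ^ 2 * (prodS (s \ t) * prodS (t \ s)) : ℕ) / Qz z *
      ((rhoQ z r (prodS (s ∩ t) ^ 2 * (prodS (s \ t) * prodS (t \ s))) v : ℝ) *
        JJ z X ρ (s ∩ t) (prodS (s \ t) * prodS (t \ s)) v)) fun v hv => ?_)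
        (sum_le_sum_of_subset_of_nonneg ?_ ?_)
      · rw [e]
        have hv1 := (mem_Icc.1 hv).1
        refine mul_le_mul_of_nonneg_left ?_ (div_nonneg (tb.2.1 v) hQ.le)
        refine hT2 z r X v (PA a X) (cc a) C0 ρ (s ∩ t) (s \ t) (t \ s) hv1 hρ hPA
          (inter_subset_left.trans hsP) (sdiff_subset.trans hsP) (sdiff_subset.trans htP) ?_ ?_ ?_
        · exact (disjoint_sdiff_inter s t).symm
        · rw [inter_comm]
          exact (disjoint_sdiff_inter t s).symm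
        · exact disjoint_sdiff_sdiff
      · refine Icc_subset_Icc le_rfl (Nat.floor_mono ?_)
        have s1 := (K5 ∅ s (empty_subset _) hsP (by simp [hsk])).2
        have s2 := (K5 ∅ t (empty_subset _) htP (by simp [htk])).2
        have e0 : prodS (∅ : Finset ℕ) = 1 := by simp [prodS]
        rw [e0, Nat.cast_one, one_mul] at s1 s2
        have h10 : (((prodS s * prodS t : ℕ) : ℝ) / X) ≤ (X : ℝ) ^ (2 * (1 / 2 - 7 * cc a)) := by
          rw [div_le_iff₀ hXp]
          push_cast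
          calc (prodS s : ℝ) * prodS t ≤ (X : ℝ) ^ (th a + cc a) * (X : ℝ) ^ (th a + cc a) :=
                mul_le_mul s1 s2 (Nat.cast_nonneg _) (by positivity)
            _ = (X : ℝ) ^ (2 * (1 / 2 - 7 * cc a)) * (X : ℝ) ^ (1 : ℝ) := by
                rw [← Real.rpow_add hXp, ← Real.rpow_add hXp]
                congr 1
                unfold th
                ring
            _ = _ := by rw [Real.rpow_one]
        have h11 : √(((prodS s * prodS t : ℕ) : ℝ) / X) ≤ (X : ℝ) ^ (1 / 2 - 7 * cc a) := by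
          apply Real.sqrt_le_iff.2
          refine ⟨by positivity, ?_⟩
          rw [← Real.rpow_natCast, ← Real.rpow_mul hXp.le]
          convert h10 using 2
          push_cast
          ring
        have h12 : (2 : ℝ) ≤ (X : ℝ) ^ (1 / 2 + 6 * cc a) := by
          calc (2 : ℝ) ≤ 4 := by norm_num
            _ = (16 : ℝ) ^ (1 / 2 : ℝ) := by
                rw [show (16 : ℝ) = 4 ^ (2 : ℝ) by norm_num, ← Real.rpow_mul (by norm_num)]
                norm_num
            _ ≤ (X : ℝ) ^ (1 / 2 : ℝ) := Real.rpow_le_rpow (by norm_num) hXr (by norm_num)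
            _ ≤ _ := Real.rpow_le_rpow_of_exponent_le (by linarith) (by linarith)
        calc 2 * √(((prodS s * prodS t : ℕ) : ℝ) / X)
            ≤ (X : ℝ) ^ (1 / 2 + 6 * cc a) * (X : ℝ) ^ (1 / 2 - 7 * cc a) :=
              mul_le_mul h12 h11 (Real.sqrt_nonneg _) (by positivity)
          _ = (X : ℝ) ^ (1 - cc a) := by
              rw [← Real.rpow_add hXp]
              congr 1
              ring
      · intro v _ _
        have q3 := hJP z X (PA a X) (cc a) C0 ρ (s ∩ t) (prodS (s \ t) * prodS (t \ s)) v hρ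
        have q4 := tb.2.1 v
        positivity
    rw [hA]
    have q5 : (0 : ℝ) < 2 ^ ((s ∩ t).card) := by positivity
    rw [show ∀ b : Finset ℕ, 2 * ((fun c s t => 2 ^ c.card * MT a z r X η ρ c s t) b (s \ t) (t \ s))
      = 2 ^ b.card * (2 * MT a z r X η ρ b (s \ t) (t \ s)) from fun b => by ring, ← mul_add]
    refine mul_le_mul_of_nonneg_left (q1.trans ?_) q5.le
    rw [sum_add_distrib]
    linarith
  -- step 2: sum over pairs
  have step2 : ∑ D ∈ DD z r X η, wt ρ D * SD D (SA a X) (fun _ => 1) ≤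
      η * (ε / 4) * P0 * GG X ρ * √(X : ℝ) * N ^ 2 +
      2 * ∑ c ∈ (PA a X).powerset.filter (fun c => c.card ≤ k),
        ∑ s ∈ (PA a X).powersetCard (k - c.card), ∑ t ∈ (PA a X).powersetCard (k - c.card),
          A c s t := by
    have e1 : ∑ D ∈ DD z r X η, wt ρ D * SD D (SA a X) (fun _ => 1) =
        ∑ s ∈ SA a X, ∑ t ∈ SA a X, 2 ^ ((s ∩ t).card) *
          ∑ D ∈ DD z r X η, wt ρ D * Rsum D (prodS s * prodS t) := by
      simp only [SD, one_mul, mul_sum]
      rw [sum_comm]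
      refine sum_congr rfl fun s _ => ?_
      rw [sum_comm]
      refine sum_congr rfl fun t _ => sum_congr rfl fun D _ => ?_
      ring
    rw [e1]
    refine (sum_le_sum fun s hs => sum_le_sum fun t ht => step1 s hs t ht).trans ?_
    simp only [sum_add_distrib]
    refine add_le_add K1 ?_
    have e2 : ∑ s ∈ SA a X, ∑ t ∈ SA a X, 2 * A (s ∩ t) (s \ t) (t \ s) =
        2 * ∑ s ∈ SA a X, ∑ t ∈ SA a X, A (s ∩ t) (s \ t) (t \ s) := by
      simp only [mul_sum]
    rw [e2]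
    exact mul_le_mul_of_nonneg_left (hPAIR (PA a X) k A hA0) (by norm_num)
  -- step 3: bound for each c
  set T : ℝ := GG X ρ * η * √(X : ℝ) with hT
  have hTp : 0 < T := by positivity
  set L : ℝ := (1 + Real.log X) ^ (2 * C0) with hL
  have hLp : 0 < L := by positivity
  set f : ℕ → ℝ := fun i => 2 ^ (z + 5) * T * (6 ^ i * CA a X (k - i) ^ 2) with hf
  have hf0 : ∀ i, 0 ≤ f i := fun i => by
    simp only [hf]
    positivity
  have step3 : ∀ c ∈ (PA a X).powerset.filter (fun c => c.card ≤ k),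
      ∑ s ∈ (PA a X).powersetCard (k - c.card), ∑ t ∈ (PA a X).powersetCard (k - c.card),
          A c s t ≤ (if c = ∅ then (1 + ε / 4) * (P0 / 2) * T * N ^ 2 else 0) +
        (if 1 ≤ c.card then f c.card else 0) + (if i0 + 1 ≤ c.card then L * f c.card else 0) := by
    intro c hc
    rw [mem_filter, mem_powerset] at hc
    have e3 : ∑ s ∈ (PA a X).powersetCard (k - c.card), ∑ t ∈ (PA a X).powersetCard (k - c.card),
          A c s t = 2 ^ c.card * ∑ s ∈ (PA a X).powersetCard (k - c.card),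
          ∑ t ∈ (PA a X).powersetCard (k - c.card), MT a z r X η ρ c s t := by
      simp only [hA, mul_sum]
    rw [e3]
    rcases Finset.eq_empty_or_nonempty c with h | h
    · subst h
      simp only [card_empty, pow_zero, one_mul, Nat.sub_zero]
      have : ¬ (1 ≤ 0) := by omega
      simp only [if_true, this, if_false]
      have h13 : ¬ (i0 + 1 ≤ 0) := by omega
      simp only [h13, if_false, add_zero]
      refine K2.trans (le_of_eq ?_)
      rw [hT, hP0]
      ring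
    · have hc1' : 1 ≤ c.card := h.card_pos
      have hne : c ≠ ∅ := h.ne_empty
      simp only [hne, if_false, zero_add, hc1', if_true]
      have e6 : (2 : ℝ) ^ c.card * 3 ^ c.card = 6 ^ c.card := by
        rw [← mul_pow]
        norm_num
      by_cases hci : i0 + 1 ≤ c.card
      · simp only [hci, if_true]
        have := K4 c hc.1 hc.2
        have h14 : (2 : ℝ) ^ c.card * ∑ s ∈ (PA a X).powersetCard (k - c.card),
          ∑ t ∈ (PA a X).powersetCard (k - c.card), MT a z r X η ρ c s t ≤ L * f c.card := by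
          refine (mul_le_mul_of_nonneg_left this (by positivity)).trans (le_of_eq ?_)
          simp only [hf]
          rw [← e6, hT, hL]
          ring
        linarith [hf0 c.card]
      · simp only [hci, if_false, add_zero]
        have := K3 c hc.1 (by omega)
        refine (mul_le_mul_of_nonneg_left this (by positivity)).trans (le_of_eq ?_)
        simp only [hf]
        rw [← e6, hT]
        ring
  have comb0 := hCOMB n k 0 6 (by norm_num) hn1 hkn
  have comb1 := hCOMB n k i0 6 (by norm_num) hn1 hkn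
  have ef : ∀ j : ℕ, ∑ i ∈ Icc j k, (n.choose i : ℝ) * f i = 2 ^ (z + 5) * T *
      ∑ i ∈ Icc j k, (n.choose i : ℝ) * 6 ^ i * (n.choose (k - i) : ℝ) ^ 2 := by
    intro j
    rw [mul_sum]
    refine sum_congr rfl fun i _ => ?_
    simp only [hf]
    unfold CA
    ring
  have step4 : ∑ c ∈ (PA a X).powerset.filter (fun c => c.card ≤ k),
        ∑ s ∈ (PA a X).powersetCard (k - c.card), ∑ t ∈ (PA a X).powersetCard (k - c.card),
          A c s t ≤ (1 + ε / 4) * (P0 / 2) * T * N ^ 2 + 2 ^ (z + 5) * T * (x * 3 * N ^ 2) +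
          L * (2 ^ (z + 5) * T * (x ^ (i0 + 1) * 3 * N ^ 2)) := by
    refine (sum_le_sum step3).trans ?_
    rw [sum_add_distrib, sum_add_distrib]
    refine add_le_add (add_le_add ?_ ?_) ?_
    · rw [Finset.sum_ite_eq']
      split_ifs
      · exact le_rfl
      · positivity
    · refine (sum_card (PA a X) k 1 f hf0).trans ?_
      rw [ef 1]
      refine mul_le_mul_of_nonneg_left ?_ (by positivity)
      refine comb0.trans ?_
      rw [zero_add, pow_one]
      refine mul_le_mul_of_nonneg_right ?_ (by positivity)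
      exact mul_le_mul_of_nonneg_left hex hx0
    · refine (sum_card (PA a X) k (i0 + 1) (fun i => L * f i)
        (fun i => mul_nonneg hLp.le (hf0 i))).trans ?_
      have e7 : ∑ i ∈ Icc (i0 + 1) k, ((PA a X).card.choose i : ℝ) * (L * f i) =
          L * ∑ i ∈ Icc (i0 + 1) k, (n.choose i : ℝ) * f i := by
        rw [mul_sum]
        exact sum_congr rfl fun i _ => by ring
      rw [e7, ef]
      refine mul_le_mul_of_nonneg_left ?_ hLp.le
      refine mul_le_mul_of_nonneg_left ?_ (by positivity)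
      refine comb1.trans ?_
      refine mul_le_mul_of_nonneg_right ?_ (by positivity)
      exact mul_le_mul_of_nonneg_left hex (by positivity)
  refine step2.trans ?_
  have hN2 : 0 < N ^ 2 := by positivity
  have hfin : 2 * (2 ^ (z + 5) * T * (x * 3 * N ^ 2) +
      L * (2 ^ (z + 5) * T * (x ^ (i0 + 1) * 3 * N ^ 2))) ≤ ε / 2 * P0 * T * N ^ 2 := by
    have e8 : 2 * (2 ^ (z + 5) * T * (x * 3 * N ^ 2) +
      L * (2 ^ (z + 5) * T * (x ^ (i0 + 1) * 3 * N ^ 2))) =
      3 * 2 ^ (z + 6) * (x + L * x ^ (i0 + 1)) * (T * N ^ 2) := by ring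
    have e9 : ε / 2 * P0 * T * N ^ 2 = 3 * 2 ^ (z + 6) * (c1 + c1) * (T * N ^ 2) := by
      rw [hc1]
      field_simp
      ring
    rw [e8, e9]
    refine mul_le_mul_of_nonneg_right ?_ (by positivity)
    refine mul_le_mul_of_nonneg_left ?_ (by positivity)
    exact add_le_add hxc hxL
  calc η * (ε / 4) * P0 * GG X ρ * √(X : ℝ) * N ^ 2 +
      2 * ∑ c ∈ (PA a X).powerset.filter (fun c => c.card ≤ k),
        ∑ s ∈ (PA a X).powersetCard (k - c.card), ∑ t ∈ (PA a X).powersetCard (k - c.card),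
          A c s t
      ≤ η * (ε / 4) * P0 * GG X ρ * √(X : ℝ) * N ^ 2 +
        2 * ((1 + ε / 4) * (P0 / 2) * T * N ^ 2 + 2 ^ (z + 5) * T * (x * 3 * N ^ 2) +
          L * (2 ^ (z + 5) * T * (x ^ (i0 + 1) * 3 * N ^ 2))) := by
        linarith [step4]
    _ = (ε / 4) * P0 * T * N ^ 2 + (1 + ε / 4) * P0 * T * N ^ 2 +
        2 * (2 ^ (z + 5) * T * (x * 3 * N ^ 2) +
          L * (2 ^ (z + 5) * T * (x ^ (i0 + 1) * 3 * N ^ 2))) := by
        rw [hT]
        ring
    _ ≤ (ε / 4) * P0 * T * N ^ 2 + (1 + ε / 4) * P0 * T * N ^ 2 + ε / 2 * P0 * T * N ^ 2 := by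
        linarith [hfin]
    _ = (1 + ε) * P0 * GG X ρ * η * √(X : ℝ) * N ^ 2 := by
        rw [hT]
        ring

end Run7.h784.CG
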