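import Pool.Agent.H38R2.CG.N0
import Pool.Agent.H38R2.CG.N0d
import Pool.Agent.H38R2.CG.SPL
import Pool.Agent.H38R2.CG.KR
import Pool.Agent.H38R2.CG.PV
import Pool.Agent.H38R2.CG.N1
import Pool.Agent.H38R2.CG.N2
import Pool.Agent.H38R2.CG.N3
import Pool.Agent.H38R2.CG.N3a
import Pool.Agent.H38R2.CG.N3b
import Pool.Agent.H38R2.CG.N4
import Pool.Agent.H38R2.CG.N4a
import Pool.Agent.H38R2.CG.N4b
import Pool.Agent.H38R2.CG.KF
import Pool.Agent.H38R2.CG.N5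
import Pool.Agent.H38R2.CG.N5a
import Pool.Agent.H38R2.CG.N5b
import Pool.Agent.H38R2.CG.N6
import Pool.Agent.H38R2.CG.NF
import Pool.Agent.H38R2.CG.NB
import Pool.Agent.H38R2.CG.CC5
import Pool.Agent.H38R2.CG.LS
import Pool.Agent.H38R2.CG.TB2
import Pool.Agent.H38R2.CG.TB3a
import Pool.Agent.H38R2.CG2.ERR
import Pool.Agent.Run7.h694.CG.NUM1
import Pool.Agent.Run7.h694.CG.NUM2
import Pool.Agent.Run7.h694.CG.COMB
import Pool.Agent.Run7.h694.CG.BT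
import Pool.Agent.Run7.h694.CG.CC3
import Pool.Agent.Run7.h779.CG.TRWT
import Pool.Agent.Run7.h779.CG.V0
import Pool.Agent.Run7.h779.CG.T1a
import Pool.Agent.Run7.h779.CG.T1
import Pool.Agent.Run7.h779.CG.R1
import Pool.Agent.Run7.h779.CG.R2
import Pool.Agent.Run7.h779.CG.T2
import Pool.Agent.Run7.h688.CG.V1
import Pool.Agent.Run7.h688.CG.LM
import Pool.Agent.Run7.h688.CG.M1L
import Pool.Agent.Run7.h688.CG.MLOW
import Pool.Agent.Run7.h212.CG.JX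
import Pool.Agent.Run7.h212.CG.KB
import Pool.Agent.Run7.h212.CG.TMa
import Pool.Agent.Run7.h212.CG.TMbc
import Pool.Agent.Run7.h811.CG.FJ
import Pool.Agent.Run7.h811.CG.OM
import Pool.Agent.Run7.h811.CG.CC1
import Pool.Agent.Run7.h426.CG.CC6
import Pool.Agent.Run7.h426.CG.NBAD
import Pool.Agent.Run7.h376.CG.CC4
import Pool.Agent.Run7.h376.CG.CC7
import Pool.Agent.Run7.h834.CG.TB3c
import Pool.Agent.Run7.h834.CG.TB6a
import Pool.Agent.Run7.h834.CG.TB6bc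
import Pool.Agent.Run7.h834.CG.TD
import Pool.Agent.Run7.h366.CG.TC0
import Pool.Agent.Run7.h366.CG.TC
import Pool.Agent.Run7.h366.CG.TE
import Pool.Agent.Run7.h67.CG.TA
import Pool.Agent.Run7.h67.CG.BH
import Pool.Agent.Run7.h67.CG.RC
import Pool.Agent.Run7.h576.CG.N0e
import Pool.Agent.Run7.h784.CG.AS0
import Pool.Agent.Run7.h784.CG.TM
import Pool.Agent.Run7.h784.CG.FIN

/-!
# Project CG2: assembly
-/

set_option autoImplicit false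

namespace Run7.h784.CG.All

open Pool.Agent.H38R2.CG Pool.Agent.H38R2.CG2

theorem hSPL : P_SPL := T_SPL T_N0
theorem hN1 : P_N1 := T_N1 hSPL
theorem hN2 : P_N2 := T_N2 hSPL
theorem hN3a : P_N3a := T_N3a T_KR T_PV
theorem hN3b : P_N3b := T_N3b T_KR T_PV hN3a
theorem hN3 : P_N3 := T_N3 hN2 hN3b
theorem hN4 : P_N4 := T_N4 T_N4a T_N4b
theorem hN5a : P_N5a := T_N5a T_KF
theorem hN5b : P_N5b := T_N5b T_KF hN4
theorem hN5 : P_N5 := T_N5 hN3 hN4 hN5a hN5b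
theorem hN6 : P_N6 := T_N6 T_KF
theorem hN0e : P_N0e := Pool.Agent.Run7.h576.CG.T_N0e
theorem hNF : P_NF := T_NF T_N0 hN0e hN1 hN3 hN5 hN6

theorem hSZ : P2_SZ := Run7.h694.CG.T2_SZ
theorem hNB : P2_NB := Run7.h694.CG.T2_NB T_NB
theorem hCOMB : P2_COMB := Run7.h694.CG.T2_COMB
theorem hPAIR : P2_PAIR := Run7.h694.CG.T2_PAIR
theorem hBT : P_BT := Run7.h694.CG.T2_BT
theorem hCC3 : P_CC3 := Run7.h694.CG.T2_CC3 hBT T_NB

theorem hTRIV : P2_TRIV := Pool.Agent.Run7.h779.CG.T2_TRIV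
theorem hWT : P2_WT := Pool.Agent.Run7.h779.CG.T2_WT
theorem hV0 : P2_V0 := Pool.Agent.Run7.h779.CG.T2_V0
theorem hT1a : P2_T1a := Pool.Agent.Run7.h779.CG.T2_T1a
theorem hT1 : P2_T1 := Pool.Agent.Run7.h779.CG.T2_T1 hT1a hWT
theorem hR1 : P2_R1 := Pool.Agent.Run7.h779.CG.T2_R1
theorem hR2 : P2_R2 := Pool.Agent.Run7.h779.CG.T2_R2
theorem hT2 : P2_T2 := Pool.Agent.Run7.h779.CG.T2_T2
theorem hJP : P2_JP := Pool.Agent.Run7.h779.CG.T2_JP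

theorem hV1 : P2_V1 := Run7.h688.CG.T2_V1 T_PV
theorem hLM : P2_LM := Run7.h688.CG.T2_LM hV0 hV1 hWT hN3a
theorem hM1L : P2_M1L := Run7.h688.CG.T2_M1L hV0 hV1 hWT hNB hSZ
theorem hMLOW : P2_MLOW := Run7.h688.CG.T2_MLOW hV0 hV1 hWT hNB hSZ hCOMB hPAIR

theorem hFJ : P2_FJ := Pool.Agent.Run7.h811.CG.T2_FJ
theorem hFS : P2_FS := Pool.Agent.Run7.h811.CG.T2_FS
theorem hOMC : P2_OMC := Pool.Agent.Run7.h811.CG.T2_OMC
theorem hOM : P2_OM := Pool.Agent.Run7.h811.CG.T2_OM_all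
theorem hCC1 : P_CC1 := Pool.Agent.Run7.h811.CG.T_CC1

theorem hCC4 : P2_CC4 := Run7.h376.CG.T2_CC4 hCC1 hCC3
theorem hCC5 : P_CC5 := T_CC5 T_LS T_NB
theorem hCC6 : P_CC6 := Run7.h426.CG.CC6.T_CC6
theorem hCC7 : P2_CC7 := Run7.h376.CG.T2_CC7 hCC5 hCC6
theorem hHS : P2_HS := Run7.h426.CG.NBAD.T2_HS
theorem hNBAD : P2_NBAD := Run7.h426.CG.NBAD.T2_NBAD hCC4 hNB

theorem hTB3c : P_TB3c := Run7.h834.CG.T_TB3c
theorem hTB6a : P_TB6a := Run7.h834.CG.T_TB6a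
theorem hTB6b : P_TB6b := Run7.h834.CG.T_TB6b
theorem hTB6c : P_TB6c := Run7.h834.CG.T_TB6c
theorem hTD : P2_TD := Run7.h834.CG.T2_TD

theorem hJX : P2_JX := Pool.Agent.Run7.h212.CG.T2_JX
theorem hKB : P2_KB := Pool.Agent.Run7.h212.CG.T2_KB
theorem hTC0 : P2_TC0 := Pool.Agent.Run7.h366.CG.T2_TC0 hJX hKB hHS hFJ
theorem hTC : P2_TC := Pool.Agent.Run7.h366.CG.T2_TC hJX hKB hHS hCC7 hNBAD hFS hFJ
theorem hTE : P2_TE := Pool.Agent.Run7.h366.CG.T2_TE hJX hKB hHS hCC7 hNBAD hFS hTD hFJ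
theorem hTA : P2_TA := Run7.h67.CG.T2_TA hTE hTC hTB3c hTB6b hTB6c hJP hFJ
theorem hTMa : P2_TMa :=
  Pool.Agent.Run7.h212.CG.T2_TMa hTA hOM hOMC T_TB2 hFJ hSZ hNB hJP
theorem hTMb : P2_TMb :=
  Pool.Agent.Run7.h212.CG.T2_TMb hTC hOM hOMC T_TB2 hFJ hSZ hNB hTB3c hJP
theorem hTMc : P2_TMc :=
  Pool.Agent.Run7.h212.CG.T2_TMc hTC0 hOM hOMC T_TB2 hFJ hSZ hNB hTB3c hJP
theorem hERR : P2_ERR := T2_ERR hSZ hNB hWT hV0 hR1 T_TB3a
theorem hTM : P2_TM :=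
  Run7.h784.CG.T2_TM hT1 hT2 hERR hPAIR hCOMB hTMa hTMb hTMc hSZ hNB hJP T_TB2

theorem hAS0 : P2_AS0 := Run7.h784.CG.T2_AS0 hNF hLM hM1L hMLOW hTM hWT hNB
theorem hAS1 : P2_AS1 := Run7.h784.CG.T2_AS1 hAS0 hTRIV
theorem hBH : P2_BH := Run7.h67.CG.T2_BH
theorem hRC : P2_RC := Run7.h67.CG.T2_RC
theorem hAP : P2_AP := Run7.h784.CG.T2_AP hAS0 hBH hRC hWT

/-- For every `a > 2` and 100% of the squarefree `d` the class group of `ℚ(√d)` is generated by the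
primes of norm at most `(log d) ^ a`. -/
theorem finalAll : FinalAll := Run7.h784.CG.T2_FINA hAS1 T_N0d

/-- For every `a > 2` and 100% of the primes `p` the class group of `ℚ(√p)` is generated by the
primes of norm at most `(log p) ^ a`. -/
theorem finalPrimes : FinalPrimes := Run7.h784.CG.T2_FINP hAP T_N0d

end Run7.h784.CG.All
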